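import Mathlib

/-!
The Caro-Wei bound for independent sets, in terms of closed degrees.
-/

namespace Pool.Agent.helper41.LF

open Finset

theorem caro_wei_aux {α : Type*} [DecidableEq α] (R : α → α → Prop) [DecidableRel R]
    (hrefl : ∀ a, R a a) (hsymm : ∀ a b, R a b → R b a) :
    ∀ (n : ℕ) (T : Finset α), T.card = n →
      ∃ S ⊆ T, (∀ a ∈ S, ∀ b ∈ S, a ≠ b → ¬ R a b) ∧
        ∑ t ∈ T, (1 : ℝ) / ((T.filter (R t)).card : ℝ) ≤ (S.card : ℝ) := by
  intro n
  induction n using Nat.strong_induction_on with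
  | _ n ih =>
    intro T hT
    rcases T.eq_empty_or_nonempty with rfl | hne
    · exact ⟨∅, by simp, by simp, by simp⟩
    obtain ⟨t0, ht0, hmin⟩ := Finset.exists_min_image T (fun t => (T.filter (R t)).card) hne
    set B := T.filter (R t0) with hB
    set T' := T.filter (fun t => ¬ R t0 t) with hT'
    have ht0B : t0 ∈ B := Finset.mem_filter.2 ⟨ht0, hrefl t0⟩
    have hcardB : 0 < B.card := Finset.card_pos.2 ⟨t0, ht0B⟩
    have hsum : B.card + T'.card = T.card := Finset.card_filter_add_card_filter_not _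
    obtain ⟨S', hS'T, hS'ind, hS'⟩ := ih T'.card (by omega) T' rfl
    have ht0S : t0 ∉ S' := fun h => (Finset.mem_filter.1 (hS'T h)).2 (hrefl t0)
    refine ⟨insert t0 S', ?_, ?_, ?_⟩
    · intro a ha
      rcases Finset.mem_insert.1 ha with rfl | ha
      · exact ht0
      · exact (Finset.mem_filter.1 (hS'T ha)).1
    · intro a ha b hb hab
      rcases Finset.mem_insert.1 ha with h1 | h1 <;> rcases Finset.mem_insert.1 hb with h2 | h2
      · exact absurd (h1.trans h2.symm) hab
      · rw [h1]
        exact (Finset.mem_filter.1 (hS'T h2)).2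
      · rw [h2]
        exact fun h => (Finset.mem_filter.1 (hS'T h1)).2 (hsymm _ _ h)
      · exact hS'ind a h1 b h2 hab
    · rw [Finset.card_insert_of_notMem ht0S]
      have hsplit : ∑ t ∈ T, (1 : ℝ) / ((T.filter (R t)).card : ℝ) =
          ∑ t ∈ B, (1 : ℝ) / ((T.filter (R t)).card : ℝ) +
            ∑ t ∈ T', (1 : ℝ) / ((T.filter (R t)).card : ℝ) :=
        (Finset.sum_filter_add_sum_filter_not T (R t0) _).symm
      have h1 : ∑ t ∈ B, (1 : ℝ) / ((T.filter (R t)).card : ℝ) ≤ 1 := by
        calc ∑ t ∈ B, (1 : ℝ) / ((T.filter (R t)).card : ℝ)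
            ≤ ∑ t ∈ B, (1 : ℝ) / (B.card : ℝ) := by
              refine Finset.sum_le_sum fun t ht => ?_
              have h2 : B.card ≤ (T.filter (R t)).card := hmin t (Finset.mem_filter.1 ht).1
              have h3 : (0 : ℝ) < (B.card : ℝ) := by exact_mod_cast hcardB
              exact one_div_le_one_div_of_le h3 (by exact_mod_cast h2)
          _ = 1 := by
              rw [Finset.sum_const, nsmul_eq_mul]
              have h3 : (B.card : ℝ) ≠ 0 := by exact_mod_cast hcardB.ne'
              field_simp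
      have h2 : ∑ t ∈ T', (1 : ℝ) / ((T.filter (R t)).card : ℝ) ≤
          ∑ t ∈ T', (1 : ℝ) / ((T'.filter (R t)).card : ℝ) := by
        refine Finset.sum_le_sum fun t ht => ?_
        have h3 : 0 < (T'.filter (R t)).card :=
          Finset.card_pos.2 ⟨t, Finset.mem_filter.2 ⟨ht, hrefl t⟩⟩
        have h4 : (T'.filter (R t)).card ≤ (T.filter (R t)).card :=
          Finset.card_le_card (Finset.filter_subset_filter _ (Finset.filter_subset _ _))
        exact one_div_le_one_div_of_le (by exact_mod_cast h3) (by exact_mod_cast h4)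
      rw [hsplit]
      push_cast
      linarith

/-- An independent set of size at least `|T| ^ 2 / (sum of the closed degrees)`. -/
theorem caro_wei {α : Type*} [DecidableEq α] (R : α → α → Prop) [DecidableRel R]
    (hrefl : ∀ a, R a a) (hsymm : ∀ a b, R a b → R b a) (T : Finset α) :
    ∃ S ⊆ T, (∀ a ∈ S, ∀ b ∈ S, a ≠ b → ¬ R a b) ∧
      (T.card : ℝ) ^ 2 ≤ (S.card : ℝ) * ∑ t ∈ T, ((T.filter (R t)).card : ℝ) := by
  obtain ⟨S, hST, hind, hS⟩ := caro_wei_aux R hrefl hsymm T.card T rfl
  refine ⟨S, hST, hind, ?_⟩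
  have hcs := Finset.sum_sq_le_sum_mul_sum_of_sq_le_mul T
    (r := fun _ => (1 : ℝ)) (f := fun t => (1 : ℝ) / ((T.filter (R t)).card : ℝ))
    (g := fun t => ((T.filter (R t)).card : ℝ))
    (fun t _ => by positivity) (fun t _ => by positivity)
    (fun t ht => by
      have h3 : 0 < (T.filter (R t)).card :=
        Finset.card_pos.2 ⟨t, Finset.mem_filter.2 ⟨ht, hrefl t⟩⟩
      have h4 : ((T.filter (R t)).card : ℝ) ≠ 0 := by exact_mod_cast h3.ne'
      refine le_of_eq ?_
      field_simp)
  rw [Finset.sum_const, nsmul_eq_mul, mul_one] at hcs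
  refine hcs.trans ?_
  exact mul_le_mul_of_nonneg_right hS (Finset.sum_nonneg fun t _ => by positivity)

end Pool.Agent.helper41.LF
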