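import Pool.Agent.helper41.LF.Stable

/-!
Samples with a repeated vertex have small total weight; existence of a good sample.
-/

namespace Pool.Agent.helper41.LF

open Finset

theorem noninj_pair {I V : Type*} [Fintype I] [DecidableEq I] [Fintype V] [DecidableEq V]
    (W : (I → V) → ℝ) (c : ℝ) (hW : ∀ s p v, W s ≤ c * W (Function.update s p v))
    (p q : I) (hpq : p ≠ q) :
    (Fintype.card V : ℝ) * ∑ s : I → V, (if s p = s q then W s else 0) ≤ c * ∑ s, W s := by
  classical
  have h1 : ∑ s : I → V, (if s p = s q then W s else 0) =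
      ∑ s ∈ Finset.univ.filter (fun s : I → V => s p = s q), W s := by
    rw [Finset.sum_filter]
  rw [h1, ← nsmul_eq_mul, ← Finset.card_univ, ← Finset.sum_const, Finset.sum_comm,
    ← Finset.sum_product']
  calc ∑ x ∈ (Finset.univ.filter (fun s : I → V => s p = s q)) ×ˢ (Finset.univ : Finset V), W x.1
      ≤ ∑ x ∈ (Finset.univ.filter (fun s : I → V => s p = s q)) ×ˢ (Finset.univ : Finset V),
          c * W (Function.update x.1 p x.2) := Finset.sum_le_sum fun x _ => hW _ _ _
    _ = ∑ s : I → V, c * W s := by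
        refine Finset.sum_nbij' (fun x => Function.update x.1 p x.2)
          (fun s => (Function.update s p (s q), s p)) ?_ ?_ ?_ ?_ ?_
        · intro x _
          exact Finset.mem_univ _
        · intro s _
          rw [Finset.mem_product]
          refine ⟨Finset.mem_filter.2 ⟨Finset.mem_univ _, ?_⟩, Finset.mem_univ _⟩
          simp only [Function.update_self, Function.update_of_ne (Ne.symm hpq)]
        · rintro ⟨s, v⟩ hx
          rw [Finset.mem_product] at hx
          have hs : s p = s q := (Finset.mem_filter.1 hx.1).2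
          simp only [Function.update_idem, Function.update_self,
            Function.update_of_ne (Ne.symm hpq), ← hs, Function.update_eq_self]
        · intro s _
          simp only [Function.update_idem, Function.update_eq_self]
        · intro x _
          rfl
    _ = c * ∑ s, W s := by rw [Finset.mul_sum]

theorem noninj_sum {I V : Type*} [Fintype I] [DecidableEq I] [Fintype V] [DecidableEq V]
    [Nonempty V]
    (W : (I → V) → ℝ) (c : ℝ) (hc : 0 ≤ c) (hW0 : ∀ s, 0 ≤ W s)
    (hW : ∀ s p v, W s ≤ c * W (Function.update s p v)) :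
    ∑ s : I → V, (if Function.Injective s then 0 else W s) ≤
      ((Fintype.card I : ℝ) ^ 2 * c / (Fintype.card V : ℝ)) * ∑ s, W s := by
  classical
  have hV : (0 : ℝ) < (Fintype.card V : ℝ) := by exact_mod_cast Fintype.card_pos
  have h1 : ∀ s : I → V, (if Function.Injective s then 0 else W s) ≤
      ∑ pq ∈ (Finset.univ : Finset I).offDiag, (if s pq.1 = s pq.2 then W s else 0) := by
    intro s
    split_ifs with h
    · exact Finset.sum_nonneg fun pq _ => by split_ifs <;> [exact hW0 s; exact le_refl _]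
    · unfold Function.Injective at h
      push Not at h
      obtain ⟨p, q, hs, hpq⟩ := h
      have hmem : (p, q) ∈ (Finset.univ : Finset I).offDiag := by simp [hpq]
      have := Finset.single_le_sum (f := fun pq : I × I => if s pq.1 = s pq.2 then W s else 0)
        (fun pq _ => by split_ifs <;> [exact hW0 s; exact le_refl _]) hmem
      simpa [hs] using this
  calc ∑ s : I → V, (if Function.Injective s then 0 else W s)
      ≤ ∑ s : I → V, ∑ pq ∈ (Finset.univ : Finset I).offDiag,
          (if s pq.1 = s pq.2 then W s else 0) := Finset.sum_le_sum fun s _ => h1 s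
    _ = ∑ pq ∈ (Finset.univ : Finset I).offDiag, ∑ s : I → V,
          (if s pq.1 = s pq.2 then W s else 0) := Finset.sum_comm
    _ ≤ ∑ pq ∈ (Finset.univ : Finset I).offDiag, c * (∑ s, W s) / (Fintype.card V : ℝ) := by
        refine Finset.sum_le_sum fun pq hpq => ?_
        rw [le_div_iff₀ hV, mul_comm]
        exact noninj_pair W c hW pq.1 pq.2 (Finset.mem_offDiag.1 hpq).2.2
    _ = ((Finset.univ : Finset I).offDiag.card : ℝ) * (c * (∑ s, W s) / (Fintype.card V : ℝ)) := by
        rw [Finset.sum_const, nsmul_eq_mul]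
    _ ≤ ((Fintype.card I : ℝ) ^ 2) * (c * (∑ s, W s) / (Fintype.card V : ℝ)) := by
        refine mul_le_mul_of_nonneg_right ?_ ?_
        · rw [Finset.offDiag_card, Finset.card_univ]
          have : Fintype.card I * Fintype.card I - Fintype.card I ≤ Fintype.card I ^ 2 := by
            rw [pow_two]
            omega
          exact_mod_cast this
        · exact div_nonneg (mul_nonneg hc (Finset.sum_nonneg fun s _ => hW0 s)) hV.le
    _ = _ := by ring

/-- Resampling one vertex changes the number of edges by at most `m ^ 2`. -/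
theorem NN_update_fst {A B C : Type*} {m : ℕ} (f : A → B → C → ℝ) (hf : ∀ a b c, 0 ≤ f a b c)
    (hf1 : ∀ a b c, f a b c ≤ 1) (x : Fin m → A) (y : Fin m → B) (z : Fin m → C)
    (i0 : Fin m) (v : A) :
    NN f x y z ≤ NN f (Function.update x i0 v) y z + (m : ℝ) ^ 2 := by
  classical
  set G : A → ℝ := fun a => ∑ j, ∑ k, f a (y j) (z k) with hG
  have hG0 : ∀ a, 0 ≤ G a := fun a => Finset.sum_nonneg fun _ _ => Finset.sum_nonneg fun _ _ =>
    hf _ _ _
  have hG1 : ∀ a, G a ≤ (m : ℝ) ^ 2 := by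
    intro a
    calc G a ≤ ∑ j : Fin m, ∑ k : Fin m, (1 : ℝ) :=
          Finset.sum_le_sum fun _ _ => Finset.sum_le_sum fun _ _ => hf1 _ _ _
      _ = (m : ℝ) ^ 2 := by
          simp
          ring
  have e1 : NN f x y z = G (x i0) + ∑ i ∈ Finset.univ.erase i0, G (x i) := by
    exact (Finset.add_sum_erase Finset.univ (fun i => G (x i)) (Finset.mem_univ i0)).symm
  have e2 : NN f (Function.update x i0 v) y z = G v + ∑ i ∈ Finset.univ.erase i0, G (x i) := by
    have h3 : NN f (Function.update x i0 v) y z = ∑ i, G (Function.update x i0 v i) := rfl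
    rw [h3, ← Finset.add_sum_erase Finset.univ (fun i => G (Function.update x i0 v i))
      (Finset.mem_univ i0)]
    simp only [Function.update_self]
    congr 1
    refine Finset.sum_congr rfl fun i hi => ?_
    rw [Function.update_of_ne (Finset.ne_of_mem_erase hi)]
  rw [e1, e2]
  linarith [hG0 v, hG1 (x i0)]

theorem NN_update_snd {A B C : Type*} {m : ℕ} (f : A → B → C → ℝ) (hf : ∀ a b c, 0 ≤ f a b c)
    (hf1 : ∀ a b c, f a b c ≤ 1) (x : Fin m → A) (y : Fin m → B) (z : Fin m → C)
    (j0 : Fin m) (v : B) :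
    NN f x y z ≤ NN f x (Function.update y j0 v) z + (m : ℝ) ^ 2 := by
  have h1 : ∀ y : Fin m → B, NN f x y z = NN (rot f) y z x := by
    intro y
    unfold NN rot
    exact (sum_rot (fun j k i => f (x i) (y j) (z k))).symm
  rw [h1, h1]
  exact NN_update_fst (rot f) (fun _ _ _ => hf _ _ _) (fun _ _ _ => hf1 _ _ _) y z x j0 v

theorem NN_update_trd {A B C : Type*} {m : ℕ} (f : A → B → C → ℝ) (hf : ∀ a b c, 0 ≤ f a b c)
    (hf1 : ∀ a b c, f a b c ≤ 1) (x : Fin m → A) (y : Fin m → B) (z : Fin m → C)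
    (k0 : Fin m) (v : C) :
    NN f x y z ≤ NN f x y (Function.update z k0 v) + (m : ℝ) ^ 2 := by
  have h1 : ∀ z : Fin m → C, NN f x y z = NN (rot f) y z x := by
    intro z
    unfold NN rot
    exact (sum_rot (fun j k i => f (x i) (y j) (z k))).symm
  rw [h1, h1]
  exact NN_update_snd (rot f) (fun _ _ _ => hf _ _ _) (fun _ _ _ => hf1 _ _ _) y z x k0 v

/-- the three blocks of a sample -/
def bl {V : Type*} {m : ℕ} (s : Fin 3 × Fin m → V) (c : Fin 3) : Fin m → V := fun i => s (c, i)

/-- samples as triples of vectors -/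
def smp (V : Type*) (m : ℕ) :
    (Fin 3 × Fin m → V) ≃ (Fin m → V) × (Fin m → V) × (Fin m → V) where
  toFun s := (bl s 0, bl s 1, bl s 2)
  invFun t := fun p => (![t.1, t.2.1, t.2.2] : Fin 3 → Fin m → V) p.1 p.2
  left_inv s := by
    funext p
    obtain ⟨c, i⟩ := p
    fin_cases c <;> rfl
  right_inv t := rfl

theorem SW_smp {V : Type*} [Fintype V] [DecidableEq V] {m : ℕ} (f : V → V → V → ℝ) (lam : ℝ)
    (G : (Fin m → V) → (Fin m → V) → (Fin m → V) → ℝ) :
    SW f lam G = ∑ s : Fin 3 × Fin m → V, G (bl s 0) (bl s 1) (bl s 2) *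
      Real.exp (lam * NN f (bl s 0) (bl s 1) (bl s 2)) := by
  rw [← Equiv.sum_comp (smp V m).symm]
  unfold SW
  rw [Fintype.sum_prod_type]
  refine Finset.sum_congr rfl fun x _ => ?_
  rw [Fintype.sum_prod_type]
  rfl

theorem bl_update {V : Type*} {m : ℕ} (s : Fin 3 × Fin m → V) (c : Fin 3) (i : Fin m) (v : V)
    (c' : Fin 3) :
    bl (Function.update s (c, i) v) c' =
      if c' = c then Function.update (bl s c') i v else bl s c' := by
  funext j
  unfold bl
  by_cases h : c' = c
  · subst h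
    rw [if_pos rfl]
    by_cases h2 : j = i
    · subst h2
      simp
    · have : ((c', j) : Fin 3 × Fin m) ≠ (c', i) := fun h3 => h2 (Prod.ext_iff.1 h3).2
      rw [Function.update_of_ne this, Function.update_of_ne h2]
  · rw [if_neg h]
    have : ((c', j) : Fin 3 × Fin m) ≠ (c, i) := fun h3 => h (Prod.ext_iff.1 h3).1
    rw [Function.update_of_ne this]

theorem NN_update {V : Type*} {m : ℕ} (f : V → V → V → ℝ) (hf : ∀ a b c, 0 ≤ f a b c)
    (hf1 : ∀ a b c, f a b c ≤ 1) (s : Fin 3 × Fin m → V) (p : Fin 3 × Fin m) (v : V) :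
    NN f (bl s 0) (bl s 1) (bl s 2) ≤
      NN f (bl (Function.update s p v) 0) (bl (Function.update s p v) 1)
        (bl (Function.update s p v) 2) + (m : ℝ) ^ 2 := by
  obtain ⟨c, i⟩ := p
  simp only [bl_update]
  fin_cases c
  · simpa using NN_update_fst f hf hf1 (bl s 0) (bl s 1) (bl s 2) i v
  · simpa using NN_update_snd f hf hf1 (bl s 0) (bl s 1) (bl s 2) i v
  · simpa using NN_update_trd f hf hf1 (bl s 0) (bl s 1) (bl s 2) i v

theorem NN_sq_le {A B C : Type*} {m : ℕ} (f : A → B → C → ℝ)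
    (x : Fin m → A) (y : Fin m → B) (z : Fin m → C) :
    NN f x y z ^ 2 ≤ (m : ℝ) ^ 2 * Q3 f x y z := by
  have h1 : NN f x y z ^ 2 ≤ (m : ℝ) ^ 2 * QQ f x y z := by
    have := sq_sum_le_card_mul_sum_sq (s := (Finset.univ : Finset (Fin m × Fin m)))
      (f := fun p => ∑ k, f (x p.1) (y p.2) (z k))
    rw [Fintype.sum_prod_type, Fintype.sum_prod_type] at this
    have hc : (((Finset.univ : Finset (Fin m × Fin m)).card : ℕ) : ℝ) = (m : ℝ) ^ 2 := by
      simp
      ring
    rw [hc] at this
    exact this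
  have h2 : 0 ≤ QQ (rot f) y z x := Finset.sum_nonneg fun _ _ => Finset.sum_nonneg fun _ _ =>
    sq_nonneg _
  have h3 : 0 ≤ QQ (rot (rot f)) z x y := Finset.sum_nonneg fun _ _ =>
    Finset.sum_nonneg fun _ _ => sq_nonneg _
  refine h1.trans (mul_le_mul_of_nonneg_left ?_ (by positivity))
  unfold Q3
  linarith

theorem Q3_nonneg {A B C : Type*} {m : ℕ} (f : A → B → C → ℝ)
    (x : Fin m → A) (y : Fin m → B) (z : Fin m → C) : 0 ≤ Q3 f x y z := by
  have h1 : 0 ≤ QQ f x y z := Finset.sum_nonneg fun _ _ => Finset.sum_nonneg fun _ _ =>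
    sq_nonneg _
  have h2 : 0 ≤ QQ (rot f) y z x := Finset.sum_nonneg fun _ _ => Finset.sum_nonneg fun _ _ =>
    sq_nonneg _
  have h3 : 0 ≤ QQ (rot (rot f)) z x y := Finset.sum_nonneg fun _ _ =>
    Finset.sum_nonneg fun _ _ => sq_nonneg _
  unfold Q3
  linarith

/-- A sample with distinct vertices, many edges and small codegrees. -/
theorem exists_good {V : Type*} [Fintype V] [DecidableEq V] [Nonempty V] (m : ℕ)
    (f : V → V → V → ℝ)
    (hf : ∀ a b c, 0 ≤ f a b c) (hf1 : ∀ a b c, f a b c ≤ 1) (lam : ℝ) (hlam : 0 ≤ lam)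
    (hM : 0 < MM (m + 1) f lam)
    (hst : ZZ (m + 1) f (lam + ((m : ℝ) + 1) ^ 2 * ZZ (m + 1) f lam / MM (m + 1) f lam) ≤
        ZZ (m + 1) f lam * Real.exp (6 / 5 * ((m : ℝ) + 1) ^ 2))
    (heps : 9 * ((m : ℝ) + 1) ^ 2 * Real.exp (lam * ((m : ℝ) + 1) ^ 2) ≤
      1 / 400 * (Fintype.card V : ℝ)) :
    ∃ s : Fin 3 × Fin (m + 1) → V, Function.Injective s ∧
      12 / 100 * ((m : ℝ) + 1) ^ 2 * Q3 f (bl s 0) (bl s 1) (bl s 2) <
        NN f (bl s 0) (bl s 1) (bl s 2) ^ 2 := by
  classical
  by_contra hcon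
  push Not at hcon
  set I := Fin 3 × Fin (m + 1) with hI
  set N : (I → V) → ℝ := fun s => NN f (bl s 0) (bl s 1) (bl s 2) with hN
  set Q : (I → V) → ℝ := fun s => Q3 f (bl s 0) (bl s 1) (bl s 2) with hQ
  set W : (I → V) → ℝ := fun s => Real.exp (lam * N s) with hW
  have hWp : ∀ s, 0 < W s := fun s => Real.exp_pos _
  have hQ0 : ∀ s, 0 ≤ Q s := fun s => Q3_nonneg f _ _ _
  have hN0 : ∀ s, 0 ≤ N s := fun s => NN_nonneg f hf _ _ _
  have hV : (0 : ℝ) < (Fintype.card V : ℝ) := by exact_mod_cast Fintype.card_pos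
  have eZ : ZZ (m + 1) f lam = ∑ s, W s := by
    unfold ZZ
    rw [SW_smp]
    simp only [one_mul]
    rfl
  have eM : MM (m + 1) f lam = ∑ s, N s * W s := by
    unfold MM
    rw [SW_smp]
  have eQ : SW (m := m + 1) f lam (Q3 f) = ∑ s, Q s * W s := by
    rw [SW_smp]
  have hsec := second_moment m f hf lam hM hst
  rw [eQ, eM, eZ] at hsec
  rw [eM] at hM
  set Z := ∑ s, W s with hZdef
  set M := ∑ s, N s * W s with hMdef
  set q := ∑ s, Q s * W s with hqdef
  have hZp : 0 < Z := Finset.sum_pos (fun s _ => hWp s) Finset.univ_nonempty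
  have hm : (0 : ℝ) < ((m : ℝ) + 1) ^ 2 := by positivity
  have hq0 : 0 ≤ q := Finset.sum_nonneg fun s _ => mul_nonneg (hQ0 s) (hWp s).le
  -- weight of the samples with a repeated vertex
  have hnon : ∑ s : I → V, (if Function.Injective s then 0 else W s) ≤ 1 / 400 * Z := by
    have h1 := noninj_sum W (Real.exp (lam * ((m : ℝ) + 1) ^ 2)) (Real.exp_pos _).le
      (fun s => (hWp s).le) (fun s p v => by
        rw [hW]
        simp only
        rw [← Real.exp_add]
        refine Real.exp_le_exp.2 ?_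
        have := NN_update f hf hf1 s p v
        push_cast at this
        have h2 := mul_le_mul_of_nonneg_left this hlam
        simp only [hN]
        linarith)
    refine h1.trans (mul_le_mul_of_nonneg_right ?_ hZp.le)
    rw [div_le_iff₀ hV]
    have hcI : (Fintype.card I : ℝ) ^ 2 = 9 * ((m : ℝ) + 1) ^ 2 := by
      have : Fintype.card I = 3 * (m + 1) := by simp [hI]
      rw [this]
      push_cast
      ring
    rw [hcI]
    exact heps
  set g : (I → V) → ℝ := fun s =>
    12 / 100 * ((m : ℝ) + 1) ^ 2 +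
      (if Function.Injective s then 0 else ((m : ℝ) + 1) ^ 2) with hg
  have hg0 : ∀ s, 0 ≤ g s := by
    intro s
    rw [hg]
    simp only
    split_ifs <;> positivity
  have hpt : ∀ s, N s ^ 2 ≤ g s * Q s := by
    intro s
    rw [hg]
    simp only
    split_ifs with hs
    · rw [add_zero]
      exact hcon s hs
    · have h1 := NN_sq_le f (bl s 0) (bl s 1) (bl s 2)
      push_cast at h1
      have h2 : 0 ≤ 12 / 100 * ((m : ℝ) + 1) ^ 2 * Q s := mul_nonneg (by positivity) (hQ0 s)
      have h3 : N s ^ 2 ≤ ((m : ℝ) + 1) ^ 2 * Q s := h1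
      linarith
  have hcs : M ^ 2 ≤ (∑ s, g s * W s) * q := by
    have h1 : ∀ s, N s * W s ≤ Real.sqrt (g s * W s) * Real.sqrt (Q s * W s) := by
      intro s
      rw [← Real.sqrt_mul (mul_nonneg (hg0 s) (hWp s).le)]
      refine Real.le_sqrt_of_sq_le ?_
      calc (N s * W s) ^ 2 = N s ^ 2 * W s ^ 2 := by ring
        _ ≤ (g s * Q s) * W s ^ 2 := mul_le_mul_of_nonneg_right (hpt s) (by positivity)
        _ = g s * W s * (Q s * W s) := by ring
    have h2 : M ≤ ∑ s, Real.sqrt (g s * W s) * Real.sqrt (Q s * W s) :=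
      Finset.sum_le_sum fun s _ => h1 s
    calc M ^ 2 ≤ (∑ s, Real.sqrt (g s * W s) * Real.sqrt (Q s * W s)) ^ 2 :=
          pow_le_pow_left₀ hM.le h2 2
      _ ≤ (∑ s, Real.sqrt (g s * W s) ^ 2) * ∑ s, Real.sqrt (Q s * W s) ^ 2 :=
          Finset.sum_mul_sq_le_sq_mul_sq _ _ _
      _ = (∑ s, g s * W s) * q := by
          congr 1
          · exact Finset.sum_congr rfl fun s _ => Real.sq_sqrt (mul_nonneg (hg0 s) (hWp s).le)
          · exact Finset.sum_congr rfl fun s _ => Real.sq_sqrt (mul_nonneg (hQ0 s) (hWp s).le)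
  have hgs : ∑ s, g s * W s ≤ (49 / 400) * (((m : ℝ) + 1) ^ 2 * Z) := by
    have h1 : ∑ s, g s * W s = 12 / 100 * ((m : ℝ) + 1) ^ 2 * Z +
        ((m : ℝ) + 1) ^ 2 * ∑ s : I → V, (if Function.Injective s then 0 else W s) := by
      rw [hZdef, Finset.mul_sum, Finset.mul_sum, ← Finset.sum_add_distrib]
      refine Finset.sum_congr rfl fun s _ => ?_
      rw [hg]
      simp only
      split_ifs <;> ring
    rw [h1]
    have h2 := mul_le_mul_of_nonneg_left hnon hm.le
    linarith
  have h1 : M ^ 2 ≤ (49 / 400) * (((m : ℝ) + 1) ^ 2 * Z) * q :=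
    hcs.trans (mul_le_mul_of_nonneg_right hgs hq0)
  have h2 : (49 / 400 : ℝ) * (q * (((m : ℝ) + 1) ^ 2 * Z)) ≤ 49 / 400 * (798 / 100 * M ^ 2) :=
    mul_le_mul_of_nonneg_left hsec (by norm_num)
  have h3 : 0 < M ^ 2 := by positivity
  nlinarith

end Pool.Agent.helper41.LF
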