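import Pool.Agent.helper41.LF.Lin

/-!
From a linear family of triples in a sample with distinct vertices to a linear 3-partite 3-graph
on `d` vertices.
-/

namespace Pool.Agent.helper41.LF

open Finset

/-- A 3-graph `F` on the vertex set `Fin d` is admissible: it is 3-uniform, 3-partite, linear and
has at least `d ^ 2 / 100` edges. -/
def IsAdmissible (d : ℕ) (F : Finset (Finset (Fin d))) : Prop :=
  (∀ e ∈ F, e.card = 3) ∧
  (∃ χ : Fin d → Fin 3, ∀ e ∈ F, ∀ c : Fin 3, (e.filter fun v => χ v = c).card = 1) ∧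
  (∀ e ∈ F, ∀ e' ∈ F, e ≠ e' → (e ∩ e').card ≤ 1) ∧
  (d : ℝ) ^ 2 / 100 ≤ (F.card : ℝ)

theorem exists_embedding {n d m : ℕ} (hdn : d ≤ n) (hmd : 3 * m ≤ d)
    (H : Finset (Finset (Fin n))) (s : Fin 3 × Fin m → Fin n) (hs : Function.Injective s)
    (S : Finset (Fin m × Fin m × Fin m))
    (hS : ∀ t ∈ S, (Finset.univ.image fun c : Fin 3 => s (c, co t c)) ∈ H)
    (hlin : ∀ t ∈ S, ∀ t' ∈ S, t ≠ t' → ¬ RR t t')
    (hcard : (d : ℝ) ^ 2 / 100 ≤ (S.card : ℝ)) :
    ∃ F : Finset (Finset (Fin d)), IsAdmissible d F ∧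
      ∃ φ : Fin d ↪ Fin n, ∀ e ∈ F, e.map φ ∈ H := by
  classical
  -- a vertex set of size `d` containing the sample
  have hU0 : (Finset.univ.image s).card ≤ d := by
    rw [Finset.card_image_of_injective _ hs, Finset.card_univ]
    simpa using hmd
  obtain ⟨U, hU1, -, hU2⟩ := Finset.exists_subsuperset_card_eq
    (Finset.subset_univ (Finset.univ.image s)) hU0 (by simpa using hdn)
  set φ := U.orderEmbOfFin hU2 with hφ
  have hrange : ∀ p, ∃ v : Fin d, φ v = s p := by
    intro p
    have h1 : s p ∈ U := hU1 (Finset.mem_image_of_mem _ (Finset.mem_univ _))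
    have h2 : s p ∈ Set.range φ := by
      rw [hφ, Finset.range_orderEmbOfFin]
      exact h1
    exact h2
  choose σ hσ using hrange
  have hσi : Function.Injective σ := by
    intro p q hpq
    refine hs ?_
    rw [← hσ p, ← hσ q, hpq]
  -- colours
  set χ : Fin d → Fin 3 := fun v => if h : ∃ p, σ p = v then h.choose.1 else 0 with hχ
  have hχσ : ∀ p, χ (σ p) = p.1 := by
    intro p
    have hex : ∃ q, σ q = σ p := ⟨p, rfl⟩
    rw [hχ]
    simp only
    rw [dif_pos hex]
    have := hσi hex.choose_spec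
    rw [this]
  set ed : Fin m × Fin m × Fin m → Finset (Fin d) :=
    fun t => Finset.univ.image fun c : Fin 3 => σ (c, co t c) with hed
  have hci : ∀ t : Fin m × Fin m × Fin m,
      Function.Injective (fun c : Fin 3 => σ (c, co t c)) := by
    intro t c c' h
    exact (Prod.ext_iff.1 (hσi h)).1
  have hedinj : ∀ t t' : Fin m × Fin m × Fin m, ed t = ed t' → t = t' := by
    intro t t' h
    have h1 : ∀ c, co t c = co t' c := by
      intro c
      have h2 : σ (c, co t c) ∈ ed t' := by
        rw [← h]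
        exact Finset.mem_image_of_mem _ (Finset.mem_univ c)
      obtain ⟨c', -, hc'⟩ := Finset.mem_image.1 h2
      have h3 := Prod.ext_iff.1 (hσi hc')
      simp only at h3
      obtain ⟨h4, h5⟩ := h3
      rw [← h5, h4]
    have a0 := h1 0
    have a1 := h1 1
    have a2 := h1 2
    simp only [co] at a0 a1 a2
    exact Prod.ext a0 (Prod.ext a1 a2)
  refine ⟨S.image ed, ⟨?_, ⟨χ, ?_⟩, ?_, ?_⟩, φ.toEmbedding, ?_⟩
  · intro e he
    obtain ⟨t, -, rfl⟩ := Finset.mem_image.1 he
    rw [hed]
    simp only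
    rw [Finset.card_image_of_injective _ (hci t)]
    simp
  · intro e he c
    obtain ⟨t, -, rfl⟩ := Finset.mem_image.1 he
    rw [Finset.card_eq_one]
    refine ⟨σ (c, co t c), ?_⟩
    ext v
    rw [Finset.mem_filter, Finset.mem_singleton, hed]
    simp only [Finset.mem_image, Finset.mem_univ, true_and]
    constructor
    · rintro ⟨⟨c', rfl⟩, h2⟩
      rw [hχσ] at h2
      simp only at h2
      rw [h2]
    · rintro rfl
      exact ⟨⟨c, rfl⟩, hχσ _⟩
  · intro e he e' he' hne
    obtain ⟨t, ht, rfl⟩ := Finset.mem_image.1 he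
    obtain ⟨t', ht', rfl⟩ := Finset.mem_image.1 he'
    have htt : t ≠ t' := fun h => hne (by rw [h])
    have hR := hlin t ht t' ht' htt
    rw [Finset.card_le_one]
    intro a ha b hb
    rw [Finset.mem_inter, hed] at ha hb
    simp only [Finset.mem_image, Finset.mem_univ, true_and] at ha hb
    obtain ⟨⟨c, rfl⟩, ⟨c1, hc1⟩⟩ := ha
    obtain ⟨⟨c', rfl⟩, ⟨c2, hc2⟩⟩ := hb
    have k1 := Prod.ext_iff.1 (hσi hc1)
    have k2 := Prod.ext_iff.1 (hσi hc2)
    simp only at k1 k2
    obtain ⟨k3, k4⟩ := k1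
    obtain ⟨k5, k6⟩ := k2
    rw [k3] at k4
    rw [k5] at k6
    by_contra hab
    refine hR ⟨c, c', ?_, k4.symm, k6.symm⟩
    intro hcc
    rw [hcc] at hab
    exact hab rfl
  · rw [Finset.card_image_of_injective S (fun t t' h => hedinj t t' h)]
    exact hcard
  · intro e he
    obtain ⟨t, ht, rfl⟩ := Finset.mem_image.1 he
    have h1 := hS t ht
    have h2 : (ed t).map φ.toEmbedding = Finset.univ.image fun c : Fin 3 => s (c, co t c) := by
      rw [Finset.map_eq_image, hed]
      simp only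
      rw [Finset.image_image]
      congr 1
      funext c
      exact hσ _
    rw [h2]
    exact h1

end Pool.Agent.helper41.LF
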