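import Pool.Agent.helper41.LF.Holder

/-!
Gibbs weights `exp (lam * N)` where `N` counts the edges of a sample, and the second moment
of the codegrees under a stable tilt.
-/

namespace Pool.Agent.helper41.LF

open Finset

variable {A B C : Type*} [Fintype A] [Fintype B] [Fintype C]

/-- number of edges in a sample -/
def NN {m : ℕ} (f : A → B → C → ℝ) (x : Fin m → A) (y : Fin m → B) (z : Fin m → C) : ℝ :=
  ∑ i, ∑ j, ∑ k, f (x i) (y j) (z k)

/-- weighted sum over all samples -/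
noncomputable def SW {m : ℕ} (f : A → B → C → ℝ) (lam : ℝ)
    (G : (Fin m → A) → (Fin m → B) → (Fin m → C) → ℝ) : ℝ :=
  ∑ x, ∑ y, ∑ z, G x y z * Real.exp (lam * NN f x y z)

/-- partition function -/
noncomputable def ZZ (m : ℕ) (f : A → B → C → ℝ) (lam : ℝ) : ℝ :=
  SW (m := m) f lam (fun _ _ _ => 1)

/-- sum of the squared codegrees of the pairs `(x i, y j)` -/
def QQ {m : ℕ} (f : A → B → C → ℝ) (x : Fin m → A) (y : Fin m → B) (z : Fin m → C) : ℝ :=
  ∑ i, ∑ j, (∑ k, f (x i) (y j) (z k)) ^ 2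

theorem sum_rot {X Y Z : Type*} [Fintype X] [Fintype Y] [Fintype Z] (F : X → Y → Z → ℝ) :
    ∑ x, ∑ y, ∑ z, F x y z = ∑ z, ∑ x, ∑ y, F x y z := by
  rw [Finset.sum_comm' (s := univ) (t := fun _ => univ) (s' := fun _ => univ) (t' := univ)
    (by simp)]
  rw [show (∑ y, ∑ x, ∑ z, F x y z) = ∑ y, ∑ z, ∑ x, F x y z from
    Finset.sum_congr rfl fun y _ => Finset.sum_comm]
  rw [Finset.sum_comm]
  exact Finset.sum_congr rfl fun z _ => Finset.sum_comm

theorem SW_add {m : ℕ} (f : A → B → C → ℝ) (lam : ℝ)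
    (G G' : (Fin m → A) → (Fin m → B) → (Fin m → C) → ℝ) :
    SW f lam (fun x y z => G x y z + G' x y z) = SW f lam G + SW f lam G' := by
  unfold SW
  simp only [add_mul, Finset.sum_add_distrib]

theorem SW_smul {m : ℕ} (f : A → B → C → ℝ) (lam : ℝ) (c : ℝ)
    (G : (Fin m → A) → (Fin m → B) → (Fin m → C) → ℝ) :
    SW f lam (fun x y z => c * G x y z) = c * SW f lam G := by
  unfold SW
  simp only [mul_assoc, Finset.mul_sum]

theorem SW_mono {m : ℕ} (f : A → B → C → ℝ) (lam : ℝ)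
    (G G' : (Fin m → A) → (Fin m → B) → (Fin m → C) → ℝ) (h : ∀ x y z, G x y z ≤ G' x y z) :
    SW f lam G ≤ SW f lam G' := by
  unfold SW
  exact Finset.sum_le_sum fun x _ => Finset.sum_le_sum fun y _ => Finset.sum_le_sum fun z _ =>
    mul_le_mul_of_nonneg_right (h x y z) (Real.exp_pos _).le

theorem SW_nonneg {m : ℕ} (f : A → B → C → ℝ) (lam : ℝ)
    (G : (Fin m → A) → (Fin m → B) → (Fin m → C) → ℝ) (h : ∀ x y z, 0 ≤ G x y z) :
    0 ≤ SW f lam G := by
  unfold SW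
  exact Finset.sum_nonneg fun x _ => Finset.sum_nonneg fun y _ => Finset.sum_nonneg fun z _ =>
    mul_nonneg (h x y z) (Real.exp_pos _).le

theorem ZZ_pos [Nonempty A] [Nonempty B] [Nonempty C] (m : ℕ) (f : A → B → C → ℝ) (lam : ℝ) :
    0 < ZZ m f lam := by
  unfold ZZ SW
  refine Finset.sum_pos (fun x _ => Finset.sum_pos (fun y _ => Finset.sum_pos (fun z _ => ?_)
    Finset.univ_nonempty) Finset.univ_nonempty) Finset.univ_nonempty
  rw [one_mul]
  exact Real.exp_pos _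

theorem SW_sum {m : ℕ} {ι : Type*} (s : Finset ι) (f : A → B → C → ℝ) (lam : ℝ)
    (G : ι → (Fin m → A) → (Fin m → B) → (Fin m → C) → ℝ) :
    SW f lam (fun x y z => ∑ i ∈ s, G i x y z) = ∑ i ∈ s, SW f lam (G i) := by
  classical
  induction s using Finset.induction_on with
  | empty => simp [SW]
  | insert a s ha ih =>
    rw [Finset.sum_insert ha, ← ih, ← SW_add]
    congr 1
    funext x y z
    rw [Finset.sum_insert ha]

/-- The exponential moment of one codegree under a stable tilt. -/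
theorem one_pair [Nonempty A] [Nonempty B] [Nonempty C] (m : ℕ) (f : A → B → C → ℝ)
    (lam kap : ℝ) (i0 j0 : Fin (m + 1))
    (hst : ZZ (m + 1) f (lam + kap) ≤ ZZ (m + 1) f lam * Real.exp (6 / 5 * ((m : ℝ) + 1) ^ 2)) :
    SW f lam (fun (x : Fin (m + 1) → A) y z =>
      Real.exp (kap * ∑ k, f (x i0) (y j0) (z k))) ≤ Real.exp (6 / 5) * ZZ (m + 1) f lam := by
  have hH := holder_param (D := Fin (m + 1) → C) m
    (fun z a b => Real.exp (lam * ∑ k, f a b (z k)))
    (fun z a b => Real.exp (kap * ∑ k, f a b (z k)))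
    (fun z a b => Real.exp_pos _) (fun z a b => (Real.exp_pos _).le) i0 j0
  have e1 : ∀ (mu : ℝ) (x : Fin (m + 1) → A) (y : Fin (m + 1) → B) (z : Fin (m + 1) → C),
      ∏ i, ∏ j, Real.exp (mu * ∑ k, f (x i) (y j) (z k)) = Real.exp (mu * NN f x y z) := by
    intro mu x y z
    simp only [← Real.exp_sum, ← Finset.mul_sum]
    rfl
  have e2 : ∀ (x : Fin (m + 1) → A) (y : Fin (m + 1) → B) (z : Fin (m + 1) → C),
      ∏ i, ∏ j, (Real.exp (kap * ∑ k, f (x i) (y j) (z k)) *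
        Real.exp (lam * ∑ k, f (x i) (y j) (z k))) = Real.exp ((lam + kap) * NN f x y z) := by
    intro x y z
    rw [← e1]
    refine Finset.prod_congr rfl fun i _ => Finset.prod_congr rfl fun j _ => ?_
    rw [← Real.exp_add]
    congr 1
    ring
  simp only [e1, e2] at hH
  have hZ : ∀ mu, (∑ z : Fin (m + 1) → C, ∑ x : Fin (m + 1) → A, ∑ y : Fin (m + 1) → B,
      Real.exp (mu * NN f x y z)) = ZZ (m + 1) f mu := by
    intro mu
    rw [← sum_rot (fun x y z => Real.exp (mu * NN f x y z))]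
    simp only [ZZ, SW, one_mul]
  rw [hZ, hZ] at hH
  have hT : (∑ z : Fin (m + 1) → C, ∑ x : Fin (m + 1) → A, ∑ y : Fin (m + 1) → B,
      Real.exp (kap * ∑ k, f (x i0) (y j0) (z k)) * Real.exp (lam * NN f x y z)) =
      SW f lam (fun (x : Fin (m + 1) → A) y z =>
      Real.exp (kap * ∑ k, f (x i0) (y j0) (z k))) := by
    rw [← sum_rot (fun x y z => Real.exp (kap * ∑ k, f (x i0) (y j0) (z k)) *
      Real.exp (lam * NN f x y z))]
    rfl
  rw [hT] at hH
  have hZp := ZZ_pos (m + 1) f lam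
  have hpow : (SW f lam (fun (x : Fin (m + 1) → A) y z =>
      Real.exp (kap * ∑ k, f (x i0) (y j0) (z k)))) ^ (m * m + 2 * m + 1) ≤
      (Real.exp (6 / 5) * ZZ (m + 1) f lam) ^ (m * m + 2 * m + 1) := by
    refine hH.trans ?_
    calc ZZ (m + 1) f (lam + kap) * ZZ (m + 1) f lam ^ (m * m + 2 * m)
        ≤ (ZZ (m + 1) f lam * Real.exp (6 / 5 * ((m : ℝ) + 1) ^ 2)) *
            ZZ (m + 1) f lam ^ (m * m + 2 * m) :=
          mul_le_mul_of_nonneg_right hst (pow_pos hZp _).le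
      _ = (Real.exp (6 / 5) * ZZ (m + 1) f lam) ^ (m * m + 2 * m + 1) := by
          rw [mul_pow, ← Real.exp_nat_mul, pow_succ (ZZ (m + 1) f lam)]
          have : 6 / 5 * ((m : ℝ) + 1) ^ 2 = ((m * m + 2 * m + 1 : ℕ) : ℝ) * (6 / 5) := by
            push_cast
            ring
          rw [this]
          ring
  exact (pow_le_pow_iff_left₀
    (SW_nonneg f lam _ fun x y z => (Real.exp_pos _).le)
    (mul_nonneg (Real.exp_pos _).le hZp.le) (Nat.succ_ne_zero _)).1 hpow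

theorem dirZ [Nonempty A] [Nonempty B] [Nonempty C] (m : ℕ) (f : A → B → C → ℝ)
    (hf : ∀ a b c, 0 ≤ f a b c) (lam kap : ℝ) (hkap : 0 ≤ kap)
    (hst : ZZ (m + 1) f (lam + kap) ≤ ZZ (m + 1) f lam * Real.exp (6 / 5 * ((m : ℝ) + 1) ^ 2)) :
    ((m : ℝ) + 1) ^ 2 * ZZ (m + 1) f lam + kap * SW (m := m + 1) f lam (NN f)
      + kap ^ 2 / 2 * SW (m := m + 1) f lam (QQ f)
      ≤ ((m : ℝ) + 1) ^ 2 * (Real.exp (6 / 5) * ZZ (m + 1) f lam) := by
  have h1 : SW f lam (fun (x : Fin (m + 1) → A) y z =>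
      ∑ p : Fin (m + 1) × Fin (m + 1), Real.exp (kap * ∑ k, f (x p.1) (y p.2) (z k))) ≤
      ((m : ℝ) + 1) ^ 2 * (Real.exp (6 / 5) * ZZ (m + 1) f lam) := by
    rw [SW_sum]
    refine (Finset.sum_le_sum fun p _ => one_pair m f lam kap p.1 p.2 hst).trans ?_
    rw [Finset.sum_const, nsmul_eq_mul]
    refine le_of_eq ?_
    congr 1
    simp
    ring
  refine le_trans ?_ h1
  have e0 : ((m : ℝ) + 1) ^ 2 * ZZ (m + 1) f lam =
      SW (m := m + 1) f lam (fun _ _ _ => ((m : ℝ) + 1) ^ 2 * 1) := by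
    rw [SW_smul]
    rfl
  rw [e0, ← SW_smul, ← SW_smul, ← SW_add, ← SW_add]
  refine SW_mono f lam _ _ fun x y z => ?_
  have e1 : ∀ p : Fin (m + 1) × Fin (m + 1),
      1 + kap * (∑ k, f (x p.1) (y p.2) (z k)) +
        kap ^ 2 / 2 * (∑ k, f (x p.1) (y p.2) (z k)) ^ 2 ≤
      Real.exp (kap * ∑ k, f (x p.1) (y p.2) (z k)) := by
    intro p
    have hd : 0 ≤ ∑ k, f (x p.1) (y p.2) (z k) := Finset.sum_nonneg fun k _ => hf _ _ _
    have := Real.quadratic_le_exp_of_nonneg (mul_nonneg hkap hd)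
    linarith [this]
  refine le_trans (le_of_eq ?_) (Finset.sum_le_sum fun p _ => e1 p)
  rw [Finset.sum_add_distrib, Finset.sum_add_distrib, ← Finset.mul_sum, ← Finset.mul_sum]
  have e2 : (∑ p : Fin (m + 1) × Fin (m + 1), ∑ k, f (x p.1) (y p.2) (z k)) = NN f x y z := by
    rw [Fintype.sum_prod_type]
    rfl
  have e3 : (∑ p : Fin (m + 1) × Fin (m + 1), (∑ k, f (x p.1) (y p.2) (z k)) ^ 2) =
      QQ f x y z := by
    rw [Fintype.sum_prod_type]
    rfl
  rw [e2, e3]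
  simp
  ring

end Pool.Agent.helper41.LF
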