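import Mathlib

/-!
Hoelder inequalities for the complete bipartite weight `∏ w (x i) (y j)`.
-/

namespace Pool.Agent.helper41.LF

open Finset

/-- A weighted power mean inequality. -/
theorem jensen_pow {ι : Type*} [Fintype ι] (L Z P : ι → ℝ) (k : ℕ)
    (hL : ∀ i, 0 ≤ L i) (hZ : ∀ i, 0 < Z i)
    (h : ∀ i, L i ^ (k + 1) ≤ P i * Z i ^ k) :
    (∑ i, L i) ^ (k + 1) ≤ (∑ i, P i) * (∑ i, Z i) ^ k := by
  classical
  rcases isEmpty_or_nonempty ι with hι | hι
  · simp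
  have hS : 0 < ∑ i, Z i := Finset.sum_pos (fun i _ => hZ i) Finset.univ_nonempty
  set S := ∑ i, Z i with hSdef
  have hJ := Real.pow_arith_mean_le_arith_mean_pow (Finset.univ : Finset ι)
    (fun i => Z i / S) (fun i => L i / Z i)
    (fun i _ => (div_pos (hZ i) hS).le)
    (by rw [← Finset.sum_div, ← hSdef, div_self hS.ne'])
    (fun i _ => div_nonneg (hL i) (hZ i).le) (k + 1)
  have h1 : ∑ i, Z i / S * (L i / Z i) = (∑ i, L i) / S := by
    rw [Finset.sum_div]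
    refine Finset.sum_congr rfl fun i _ => ?_
    have := (hZ i).ne'
    field_simp
  have h2 : ∑ i, Z i / S * (L i / Z i) ^ (k + 1) ≤ (∑ i, P i) / S := by
    rw [Finset.sum_div]
    refine Finset.sum_le_sum fun i _ => ?_
    have hz := hZ i
    have e1 : Z i / S * (L i / Z i) ^ (k + 1) = (L i ^ (k + 1) / Z i ^ k) / S := by
      rw [div_pow, pow_succ (Z i) k]
      field_simp
    rw [e1]
    have e2 : L i ^ (k + 1) / Z i ^ k ≤ P i := by
      rw [div_le_iff₀ (pow_pos hz k)]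
      exact h i
    exact div_le_div_of_nonneg_right e2 hS.le
  rw [h1] at hJ
  have h3 : ((∑ i, L i) / S) ^ (k + 1) ≤ (∑ i, P i) / S := hJ.trans h2
  rw [div_pow, div_le_div_iff₀ (pow_pos hS _) hS, pow_succ S k] at h3
  have h4 : (∑ i, L i) ^ (k + 1) * S ≤ ((∑ i, P i) * S ^ k) * S := by
    linarith [h3]
  exact le_of_mul_le_mul_right h4 hS

theorem sum_marg {A : Type*} [Fintype A] {m : ℕ} (i0 : Fin (m + 1)) (g t : A → ℝ) :
    ∑ x : Fin (m + 1) → A, t (x i0) * ∏ i, g (x i) = (∑ a, t a * g a) * (∑ a, g a) ^ m := by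
  classical
  have h := Finset.prod_univ_sum (fun _ : Fin (m + 1) => (Finset.univ : Finset A))
    (fun i a => if i = i0 then t a * g a else g a)
  rw [Fin.prod_univ_succAbove _ i0, Fintype.piFinset_univ] at h
  have e1 : ∀ j : Fin m, (∑ a, if i0.succAbove j = i0 then t a * g a else g a) = ∑ a, g a := by
    intro j
    simp [Fin.succAbove_ne]
  simp only [if_true, e1, Finset.prod_const, Finset.card_univ, Fintype.card_fin] at h
  rw [h]
  refine Finset.sum_congr rfl fun x _ => ?_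
  rw [Fin.prod_univ_succAbove _ i0, Fin.prod_univ_succAbove (fun i => if i = i0 then _ else _) i0]
  simp only [if_true]
  have e2 : ∀ j : Fin m, (if i0.succAbove j = i0 then t (x (i0.succAbove j)) * g (x (i0.succAbove j))
      else g (x (i0.succAbove j))) = g (x (i0.succAbove j)) := by
    intro j
    simp [Fin.succAbove_ne]
  simp only [e2]
  ring

theorem sum_pow_fun {A : Type*} [Fintype A] {m : ℕ} (g : A → ℝ) :
    ∑ x : Fin m → A, ∏ i, g (x i) = (∑ a, g a) ^ m := by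
  classical
  have h := Finset.prod_univ_sum (fun _ : Fin m => (Finset.univ : Finset A)) (fun _ a => g a)
  rw [Fintype.piFinset_univ] at h
  rw [← h]
  simp

/-- Hoelder for the complete bipartite weight. -/
theorem holder_kmm {A B : Type*} [Fintype A] [Fintype B] [Nonempty A] [Nonempty B] (m : ℕ)
    (w h : A → B → ℝ) (hw : ∀ a b, 0 < w a b) (hh : ∀ a b, 0 ≤ h a b) (i0 j0 : Fin (m + 1)) :
    (∑ x : Fin (m + 1) → A, ∑ y : Fin (m + 1) → B,
        h (x i0) (y j0) * ∏ i, ∏ j, w (x i) (y j)) ^ (m * m + 2 * m + 1) ≤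
      (∑ x : Fin (m + 1) → A, ∑ y : Fin (m + 1) → B, ∏ i, ∏ j, (h (x i) (y j) * w (x i) (y j))) *
      (∑ x : Fin (m + 1) → A, ∑ y : Fin (m + 1) → B, ∏ i, ∏ j, w (x i) (y j)) ^
        (m * m + 2 * m) := by
  classical
  set Z := ∑ x : Fin (m + 1) → A, ∑ y : Fin (m + 1) → B, ∏ i, ∏ j, w (x i) (y j) with hZ
  set T1 : (Fin (m + 1) → A) → ℝ := fun x => ∑ b, h (x i0) b * ∏ i, w (x i) b with hT1
  set U1 : (Fin (m + 1) → A) → ℝ := fun x => ∑ b, ∏ i, w (x i) b with hU1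
  set T2 : (Fin (m + 1) → B) → ℝ := fun y => ∑ a, ∏ j, (h a (y j) * w a (y j)) with hT2
  set U2 : (Fin (m + 1) → B) → ℝ := fun y => ∑ a, ∏ j, w a (y j) with hU2
  have hU1p : ∀ x, 0 < U1 x := fun x =>
    Finset.sum_pos (fun b _ => Finset.prod_pos fun i _ => hw _ _) Finset.univ_nonempty
  have hU2p : ∀ y, 0 < U2 y := fun y =>
    Finset.sum_pos (fun b _ => Finset.prod_pos fun i _ => hw _ _) Finset.univ_nonempty
  have hT1p : ∀ x, 0 ≤ T1 x := fun x =>
    Finset.sum_nonneg fun b _ => mul_nonneg (hh _ _) (Finset.prod_nonneg fun i _ => (hw _ _).le)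
  have hT2p : ∀ y, 0 ≤ T2 y := fun y =>
    Finset.sum_nonneg fun a _ => Finset.prod_nonneg fun j _ => mul_nonneg (hh _ _) (hw _ _).le
  -- first step
  have s1 : ∑ x : Fin (m + 1) → A, ∑ y : Fin (m + 1) → B,
      h (x i0) (y j0) * ∏ i, ∏ j, w (x i) (y j) = ∑ x, T1 x * U1 x ^ m := by
    refine Finset.sum_congr rfl fun x _ => ?_
    have := sum_marg j0 (fun b => ∏ i, w (x i) b) (fun b => h (x i0) b)
    rw [← this]
    refine Finset.sum_congr rfl fun y _ => ?_
    rw [Finset.prod_comm]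
  have s2 : Z = ∑ x, U1 x ^ (m + 1) := by
    rw [hZ]
    refine Finset.sum_congr rfl fun x _ => ?_
    have := sum_pow_fun (m := m + 1) (fun b => ∏ i, w (x i) b)
    rw [← this]
    refine Finset.sum_congr rfl fun y _ => ?_
    rw [Finset.prod_comm]
  have s3 : Z = ∑ y, U2 y ^ (m + 1) := by
    rw [hZ, Finset.sum_comm]
    refine Finset.sum_congr rfl fun y _ => ?_
    exact sum_pow_fun (m := m + 1) (fun a => ∏ j, w a (y j))
  have s4 : ∑ x, T1 x ^ (m + 1) = ∑ y, T2 y * U2 y ^ m := by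
    have e1 : ∀ x, T1 x ^ (m + 1) = ∑ y : Fin (m + 1) → B,
        (∏ j, h (x i0) (y j)) * ∏ i, ∏ j, w (x i) (y j) := by
      intro x
      have := sum_pow_fun (m := m + 1) (fun b => h (x i0) b * ∏ i, w (x i) b)
      rw [hT1]
      simp only
      rw [← this]
      refine Finset.sum_congr rfl fun y _ => ?_
      rw [Finset.prod_mul_distrib, Finset.prod_comm]
    simp only [e1]
    rw [Finset.sum_comm]
    refine Finset.sum_congr rfl fun y _ => ?_
    have := sum_marg i0 (fun a => ∏ j, w a (y j)) (fun a => ∏ j, h a (y j))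
    rw [this]
    congr 1
    refine Finset.sum_congr rfl fun a _ => ?_
    rw [Finset.prod_mul_distrib]
  have s5 : ∑ y, T2 y ^ (m + 1) = ∑ x : Fin (m + 1) → A, ∑ y : Fin (m + 1) → B,
      ∏ i, ∏ j, (h (x i) (y j) * w (x i) (y j)) := by
    rw [Finset.sum_comm]
    refine Finset.sum_congr rfl fun y _ => ?_
    exact (sum_pow_fun (m := m + 1) (fun a => ∏ j, (h a (y j) * w a (y j)))).symm
  have key1 : (∑ x, T1 x * U1 x ^ m) ^ (m + 1) ≤ (∑ x, T1 x ^ (m + 1)) * Z ^ m := by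
    rw [s2]
    refine jensen_pow (fun x => T1 x * U1 x ^ m) (fun x => U1 x ^ (m + 1))
      (fun x => T1 x ^ (m + 1)) m (fun x => mul_nonneg (hT1p x) (pow_pos (hU1p x) _).le)
      (fun x => pow_pos (hU1p x) _) (fun x => le_of_eq ?_)
    rw [mul_pow, ← pow_mul, ← pow_mul, Nat.mul_comm m (m + 1)]
  have key2 : (∑ y, T2 y * U2 y ^ m) ^ (m + 1) ≤ (∑ y, T2 y ^ (m + 1)) * Z ^ m := by
    rw [s3]
    refine jensen_pow (fun x => T2 x * U2 x ^ m) (fun x => U2 x ^ (m + 1))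
      (fun x => T2 x ^ (m + 1)) m (fun x => mul_nonneg (hT2p x) (pow_pos (hU2p x) _).le)
      (fun x => pow_pos (hU2p x) _) (fun x => le_of_eq ?_)
    rw [mul_pow, ← pow_mul, ← pow_mul, Nat.mul_comm m (m + 1)]
  have hZp : 0 < Z := by
    rw [s2]
    exact Finset.sum_pos (fun x _ => pow_pos (hU1p x) _) Finset.univ_nonempty
  rw [s1, ← s5]
  have hL0 : 0 ≤ ∑ x, T1 x * U1 x ^ m :=
    Finset.sum_nonneg fun x _ => mul_nonneg (hT1p x) (pow_pos (hU1p x) _).le
  calc (∑ x, T1 x * U1 x ^ m) ^ (m * m + 2 * m + 1)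
      = ((∑ x, T1 x * U1 x ^ m) ^ (m + 1)) ^ (m + 1) := by
        rw [← pow_mul]; congr 1; ring
    _ ≤ ((∑ x, T1 x ^ (m + 1)) * Z ^ m) ^ (m + 1) :=
        pow_le_pow_left₀ (pow_nonneg hL0 _) key1 _
    _ = (∑ y, T2 y * U2 y ^ m) ^ (m + 1) * Z ^ (m * (m + 1)) := by
        rw [s4, mul_pow, ← pow_mul]
    _ ≤ ((∑ y, T2 y ^ (m + 1)) * Z ^ m) * Z ^ (m * (m + 1)) :=
        mul_le_mul_of_nonneg_right key2 (pow_pos hZp _).le
    _ = (∑ y, T2 y ^ (m + 1)) * Z ^ (m * m + 2 * m) := by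
        rw [mul_assoc, ← pow_add]
        congr 2
        ring

/-- The same inequality averaged over a parameter. -/
theorem holder_param {A B D : Type*} [Fintype A] [Fintype B] [Fintype D] [Nonempty A] [Nonempty B]
    (m : ℕ) (w h : D → A → B → ℝ) (hw : ∀ z a b, 0 < w z a b) (hh : ∀ z a b, 0 ≤ h z a b)
    (i0 j0 : Fin (m + 1)) :
    (∑ z : D, ∑ x : Fin (m + 1) → A, ∑ y : Fin (m + 1) → B,
        h z (x i0) (y j0) * ∏ i, ∏ j, w z (x i) (y j)) ^ (m * m + 2 * m + 1) ≤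
      (∑ z : D, ∑ x : Fin (m + 1) → A, ∑ y : Fin (m + 1) → B,
        ∏ i, ∏ j, (h z (x i) (y j) * w z (x i) (y j))) *
      (∑ z : D, ∑ x : Fin (m + 1) → A, ∑ y : Fin (m + 1) → B, ∏ i, ∏ j, w z (x i) (y j)) ^
        (m * m + 2 * m) := by
  refine jensen_pow _ _ _ (m * m + 2 * m) (fun z => ?_) (fun z => ?_) (fun z => ?_)
  · exact Finset.sum_nonneg fun x _ => Finset.sum_nonneg fun y _ =>
      mul_nonneg (hh _ _ _) (Finset.prod_nonneg fun i _ => Finset.prod_nonneg fun j _ =>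
        (hw _ _ _).le)
  · exact Finset.sum_pos (fun x _ => Finset.sum_pos (fun y _ => Finset.prod_pos fun i _ =>
      Finset.prod_pos fun j _ => hw _ _ _) Finset.univ_nonempty) Finset.univ_nonempty
  · exact holder_kmm m (w z) (h z) (hw z) (hh z) i0 j0

end Pool.Agent.helper41.LF
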