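import Pool.Agent.helper41.LF.Dist
import Pool.Agent.helper41.LF.Caro

/-!
From a good sample to a linear family of triples.
-/

namespace Pool.Agent.helper41.LF

open Finset

/-- the coordinates of a triple -/
def co {m : ℕ} (t : Fin m × Fin m × Fin m) : Fin 3 → Fin m := ![t.1, t.2.1, t.2.2]

/-- two triples agree in at least two coordinates -/
def RR {m : ℕ} (t t' : Fin m × Fin m × Fin m) : Prop :=
  ∃ c c' : Fin 3, c ≠ c' ∧ co t c = co t' c ∧ co t c' = co t' c'

instance {m : ℕ} : DecidableRel (RR (m := m)) := fun _ _ => by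
  unfold RR
  infer_instance

theorem RR_refl {m : ℕ} (t : Fin m × Fin m × Fin m) : RR t t :=
  ⟨0, 1, by decide, rfl, rfl⟩

theorem RR_symm {m : ℕ} (t t' : Fin m × Fin m × Fin m) (h : RR t t') : RR t' t := by
  obtain ⟨c, c', h1, h2, h3⟩ := h
  exact ⟨c, c', h1, h2.symm, h3.symm⟩

theorem RR_cases {m : ℕ} {t t' : Fin m × Fin m × Fin m} (h : RR t t') :
    (t.1 = t'.1 ∧ t.2.1 = t'.2.1) ∨ (t.2.1 = t'.2.1 ∧ t.2.2 = t'.2.2) ∨
      (t.1 = t'.1 ∧ t.2.2 = t'.2.2) := by
  obtain ⟨c, c', h1, h2, h3⟩ := h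
  fin_cases c <;> fin_cases c' <;> simp [co] at h1 h2 h3 <;> tauto

theorem sum_card_le {m : ℕ} (F : Fin m → Fin m → Fin m → ℝ)
    (hF : ∀ i j k, F i j k = 0 ∨ F i j k = 1) (T : Finset (Fin m × Fin m × Fin m))
    (hT : T = Finset.univ.filter (fun t => F t.1 t.2.1 t.2.2 = 1)) :
    ∑ t ∈ T, ((T.filter (RR t)).card : ℝ) ≤
      (∑ i, ∑ j, (∑ k, F i j k) ^ 2) + (∑ j, ∑ k, (∑ i, F i j k) ^ 2) +
        (∑ k, ∑ i, (∑ j, F i j k) ^ 2) := by
  classical
  have hc : ∀ t : Fin m × Fin m × Fin m, ((T.filter (RR t)).card : ℝ) ≤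
      (∑ k, F t.1 t.2.1 k) + (∑ i, F i t.2.1 t.2.2) + (∑ j, F t.1 j t.2.2) := by
    intro t
    have hsub : T.filter (RR t) ⊆
        ((Finset.univ.filter (fun k => F t.1 t.2.1 k = 1)).image (fun k => (t.1, t.2.1, k)) ∪
        (Finset.univ.filter (fun i => F i t.2.1 t.2.2 = 1)).image (fun i => (i, t.2.1, t.2.2))) ∪
        (Finset.univ.filter (fun j => F t.1 j t.2.2 = 1)).image (fun j => (t.1, j, t.2.2)) := by
      intro t' ht'
      rw [Finset.mem_filter] at ht'
      obtain ⟨h1, h2⟩ := ht'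
      rw [hT, Finset.mem_filter] at h1
      have h1' := h1.2
      obtain ⟨i', j', k'⟩ := t'
      simp only at h1'
      rcases RR_cases h2 with ⟨ha, hb⟩ | ⟨ha, hb⟩ | ⟨ha, hb⟩ <;> simp only at ha hb
      · refine Finset.mem_union_left _ (Finset.mem_union_left _ (Finset.mem_image.2
          ⟨k', Finset.mem_filter.2 ⟨Finset.mem_univ _, ?_⟩, ?_⟩))
        · rw [ha, hb]
          exact h1'
        · rw [ha, hb]
      · refine Finset.mem_union_left _ (Finset.mem_union_right _ (Finset.mem_image.2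
          ⟨i', Finset.mem_filter.2 ⟨Finset.mem_univ _, ?_⟩, ?_⟩))
        · rw [ha, hb]
          exact h1'
        · rw [ha, hb]
      · refine Finset.mem_union_right _ (Finset.mem_image.2
          ⟨j', Finset.mem_filter.2 ⟨Finset.mem_univ _, ?_⟩, ?_⟩)
        · rw [ha, hb]
          exact h1'
        · rw [ha, hb]
    have hcard : ∀ G : Fin m → ℝ, (∀ a, G a = 0 ∨ G a = 1) →
        ((Finset.univ.filter (fun a => G a = 1)).card : ℝ) = ∑ a, G a := by
      intro G hG
      rw [Finset.card_filter]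
      push_cast
      refine Finset.sum_congr rfl fun a _ => ?_
      rcases hG a with h | h <;> simp [h]
    have h3 := (Finset.card_le_card hsub).trans ((Finset.card_union_le _ _).trans
      (Nat.add_le_add_right (Finset.card_union_le _ _) _))
    have h4 := h3.trans (Nat.add_le_add (Nat.add_le_add Finset.card_image_le
      Finset.card_image_le) Finset.card_image_le)
    have h5 : ((T.filter (RR t)).card : ℝ) ≤
        ((Finset.univ.filter (fun k => F t.1 t.2.1 k = 1)).card : ℝ) +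
        ((Finset.univ.filter (fun i => F i t.2.1 t.2.2 = 1)).card : ℝ) +
        ((Finset.univ.filter (fun j => F t.1 j t.2.2 = 1)).card : ℝ) := by
      exact_mod_cast h4
    rw [hcard _ (fun a => hF _ _ _), hcard _ (fun a => hF _ _ _),
      hcard _ (fun a => hF _ _ _)] at h5
    exact h5
  have hsumT : ∀ G : Fin m × Fin m × Fin m → ℝ,
      ∑ t ∈ T, G t = ∑ i, ∑ j, ∑ k, F i j k * G (i, j, k) := by
    intro G
    rw [hT, Finset.sum_filter, Fintype.sum_prod_type]
    refine Finset.sum_congr rfl fun i _ => ?_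
    rw [Fintype.sum_prod_type]
    refine Finset.sum_congr rfl fun j _ => Finset.sum_congr rfl fun k _ => ?_
    simp only
    rcases hF i j k with h | h <;> simp [h]
  refine (Finset.sum_le_sum fun t _ => hc t).trans ?_
  rw [Finset.sum_add_distrib, Finset.sum_add_distrib, hsumT, hsumT, hsumT]
  refine le_of_eq ?_
  congr 1
  · congr 1
    · refine Finset.sum_congr rfl fun i _ => Finset.sum_congr rfl fun j _ => ?_
      simp only
      rw [← Finset.sum_mul, pow_two]
    · simp only
      rw [← sum_rot (fun j k i => F i j k * ∑ i', F i' j k)]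
      refine Finset.sum_congr rfl fun j _ => Finset.sum_congr rfl fun k _ => ?_
      rw [← Finset.sum_mul, pow_two]
  · simp only
    rw [sum_rot (fun i j k => F i j k * ∑ j', F i j' k)]
    refine Finset.sum_congr rfl fun k _ => Finset.sum_congr rfl fun i _ => ?_
    rw [← Finset.sum_mul, pow_two]

/-- A linear family of triples inside a sample with many edges and small codegrees. -/
theorem exists_linear {V : Type*} (m : ℕ) (f : V → V → V → ℝ)
    (hf : ∀ a b c, f a b c = 0 ∨ f a b c = 1) (x y z : Fin m → V) (th : ℝ) (hth : 0 ≤ th)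
    (h : th * Q3 f x y z < NN f x y z ^ 2) :
    ∃ S : Finset (Fin m × Fin m × Fin m), (∀ t ∈ S, f (x t.1) (y t.2.1) (z t.2.2) = 1) ∧
      (∀ t ∈ S, ∀ t' ∈ S, t ≠ t' → ¬ RR t t') ∧ th < (S.card : ℝ) := by
  classical
  set F : Fin m → Fin m → Fin m → ℝ := fun i j k => f (x i) (y j) (z k) with hF
  set T := Finset.univ.filter (fun t : Fin m × Fin m × Fin m => F t.1 t.2.1 t.2.2 = 1) with hT
  obtain ⟨S, hST, hind, hS⟩ := caro_wei (RR (m := m)) RR_refl RR_symm T
  have h1 := sum_card_le F (fun i j k => hf _ _ _) T hT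
  have h2 : (∑ i, ∑ j, (∑ k, F i j k) ^ 2) + (∑ j, ∑ k, (∑ i, F i j k) ^ 2) +
        (∑ k, ∑ i, (∑ j, F i j k) ^ 2) = Q3 f x y z := rfl
  rw [h2] at h1
  have h3 : (T.card : ℝ) = NN f x y z := by
    rw [hT, Finset.card_filter]
    push_cast
    rw [Fintype.sum_prod_type]
    unfold NN
    refine Finset.sum_congr rfl fun i _ => ?_
    rw [Fintype.sum_prod_type]
    refine Finset.sum_congr rfl fun j _ => Finset.sum_congr rfl fun k _ => ?_
    rcases hf (x i) (y j) (z k) with h | h <;> simp [hF, h]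
  rw [h3] at hS
  have hQ := Q3_nonneg f x y z
  have h4 : NN f x y z ^ 2 ≤ (S.card : ℝ) * Q3 f x y z :=
    hS.trans (mul_le_mul_of_nonneg_left h1 (Nat.cast_nonneg _))
  refine ⟨S, fun t ht => (Finset.mem_filter.1 (hST ht)).2, hind, ?_⟩
  have h5 := h.trans_le h4
  exact lt_of_mul_lt_mul_right h5 hQ

end Pool.Agent.helper41.LF
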