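import Pool.Agent.helper41.LF.Emb

/-!
Dense linear 3-partite 3-graphs of logarithmic order in dense 3-graphs.
-/

namespace Pool.Agent.helper41.LF

open Finset

/-- indicator of the edges -/
noncomputable def fH {n : ℕ} (H : Finset (Finset (Fin n))) (a b c : Fin n) : ℝ :=
  if ({a, b, c} : Finset (Fin n)) ∈ H then 1 else 0

theorem fH_01 {n : ℕ} (H : Finset (Finset (Fin n))) (a b c : Fin n) :
    fH H a b c = 0 ∨ fH H a b c = 1 := by
  unfold fH
  split_ifs <;> simp

theorem fH_eq_one {n : ℕ} (H : Finset (Finset (Fin n))) (a b c : Fin n)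
    (h : fH H a b c = 1) : ({a, b, c} : Finset (Fin n)) ∈ H := by
  unfold fH at h
  by_contra hn
  rw [if_neg hn] at h
  exact zero_ne_one h

theorem six_le {n : ℕ} (e : Finset (Fin n)) (he : e.card = 3) :
    6 ≤ (Finset.univ.filter (fun t : Fin n × Fin n × Fin n => ({t.1, t.2.1, t.2.2} :
      Finset (Fin n)) = e)).card := by
  classical
  obtain ⟨p, q, r, hpq, hpr, hqr, rfl⟩ := Finset.card_eq_three.1 he
  have hsub : ({(p, q, r), (p, r, q), (q, p, r), (q, r, p), (r, p, q), (r, q, p)} :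
      Finset (Fin n × Fin n × Fin n)) ⊆ (Finset.univ.filter (fun t : Fin n × Fin n × Fin n =>
      ({t.1, t.2.1, t.2.2} : Finset (Fin n)) = {p, q, r})) := by
    intro t ht
    simp only [Finset.mem_insert, Finset.mem_singleton] at ht
    rw [Finset.mem_filter]
    refine ⟨Finset.mem_univ _, ?_⟩
    rcases ht with rfl | rfl | rfl | rfl | rfl | rfl <;> ext v <;>
      simp only [Finset.mem_insert, Finset.mem_singleton] <;> tauto
  refine le_trans (le_of_eq ?_) (Finset.card_le_card hsub)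
  have hqp := hpq.symm
  have hrp := hpr.symm
  have hrq := hqr.symm
  rw [Finset.card_insert_of_notMem, Finset.card_insert_of_notMem, Finset.card_insert_of_notMem,
    Finset.card_insert_of_notMem, Finset.card_insert_of_notMem, Finset.card_singleton] <;>
  simp [hpq, hpr, hqr, hqp, hrp, hrq]

theorem sum_fH {n : ℕ} (H : Finset (Finset (Fin n))) (hH : ∀ e ∈ H, e.card = 3) :
    6 * (H.card : ℝ) ≤ ∑ a, ∑ b, ∑ c, fH H a b c := by
  classical
  have h1 : ∑ a, ∑ b, ∑ c, fH H a b c =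
      ((Finset.univ.filter (fun t : Fin n × Fin n × Fin n => ({t.1, t.2.1, t.2.2} :
      Finset (Fin n)) ∈ H)).card : ℝ) := by
    rw [Finset.card_filter]
    push_cast
    rw [Fintype.sum_prod_type]
    refine Finset.sum_congr rfl fun a _ => ?_
    rw [Fintype.sum_prod_type]
    rfl
  rw [h1]
  have h2 : 6 * H.card ≤ (Finset.univ.filter (fun t : Fin n × Fin n × Fin n =>
      ({t.1, t.2.1, t.2.2} : Finset (Fin n)) ∈ H)).card := by
    have h3 := Finset.card_eq_sum_card_fiberwise (f := fun t : Fin n × Fin n × Fin n =>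
      ({t.1, t.2.1, t.2.2} : Finset (Fin n)))
      (s := Finset.univ.filter (fun t : Fin n × Fin n × Fin n =>
      ({t.1, t.2.1, t.2.2} : Finset (Fin n)) ∈ H)) (t := H)
      (fun t ht => (Finset.mem_filter.1 ht).2)
    rw [h3, mul_comm, ← smul_eq_mul, ← Finset.sum_const]
    refine Finset.sum_le_sum fun e he => ?_
    refine (six_le e (hH e he)).trans (Finset.card_le_card ?_)
    intro t ht
    rw [Finset.mem_filter] at ht
    rw [Finset.mem_filter, Finset.mem_filter]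
    refine ⟨⟨Finset.mem_univ _, ?_⟩, ht.2⟩
    rw [ht.2]
    exact he
  exact_mod_cast h2

theorem sum_coord {A : Type*} [Fintype A] {m : ℕ} (i0 : Fin (m + 1)) (t : A → ℝ) :
    ∑ x : Fin (m + 1) → A, t (x i0) = (∑ a, t a) * (Fintype.card A : ℝ) ^ m := by
  have h := sum_marg i0 (fun _ => (1 : ℝ)) t
  simpa using h

theorem ZZ_zero {n : ℕ} (m : ℕ) (f : Fin n → Fin n → Fin n → ℝ) :
    ZZ (m + 1) f 0 = ((n : ℝ) ^ (m + 1)) ^ 3 := by
  unfold ZZ SW
  simp
  ring

theorem MM_zero {n : ℕ} (m : ℕ) (f : Fin n → Fin n → Fin n → ℝ) :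
    MM (m + 1) f 0 = ((m : ℝ) + 1) ^ 3 * (((n : ℝ) ^ m) ^ 3 * ∑ a, ∑ b, ∑ c, f a b c) := by
  have h1 : ∀ p : Fin (m + 1) × Fin (m + 1) × Fin (m + 1),
      SW (m := m + 1) f 0 (fun x y z => f (x p.1) (y p.2.1) (z p.2.2)) =
        ((n : ℝ) ^ m) ^ 3 * ∑ a, ∑ b, ∑ c, f a b c := by
    intro p
    unfold SW
    simp only [zero_mul, Real.exp_zero, mul_one]
    have e1 : ∀ (x y : Fin (m + 1) → Fin n),
        ∑ z : Fin (m + 1) → Fin n, f (x p.1) (y p.2.1) (z p.2.2) =
          (∑ c, f (x p.1) (y p.2.1) c) * (n : ℝ) ^ m := by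
      intro x y
      have := sum_coord p.2.2 (fun c => f (x p.1) (y p.2.1) c)
      simpa using this
    simp only [e1, ← Finset.sum_mul]
    have e2 : ∀ (x : Fin (m + 1) → Fin n),
        ∑ y : Fin (m + 1) → Fin n, ∑ c, f (x p.1) (y p.2.1) c =
          (∑ b, ∑ c, f (x p.1) b c) * (n : ℝ) ^ m := by
      intro x
      have := sum_coord p.2.1 (fun b => ∑ c, f (x p.1) b c)
      simpa using this
    simp only [e2, ← Finset.sum_mul]
    have e3 := sum_coord p.1 (fun a => ∑ b, ∑ c, f a b c)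
    rw [e3]
    simp
    ring
  have h2 : MM (m + 1) f 0 = ∑ p : Fin (m + 1) × Fin (m + 1) × Fin (m + 1),
      SW (m := m + 1) f 0 (fun x y z => f (x p.1) (y p.2.1) (z p.2.2)) := by
    rw [← SW_sum]
    unfold MM
    congr 1
    funext x y z
    rw [Fintype.sum_prod_type]
    unfold NN
    refine Finset.sum_congr rfl fun i _ => ?_
    rw [Fintype.sum_prod_type]
  rw [h2, Finset.sum_congr rfl fun p _ => h1 p, Finset.sum_const, nsmul_eq_mul]
  congr 1
  simp
  ring

theorem exp_bound {L : ℝ} (hL : 18 ≤ L) : 100 / 9 * L ^ 2 ≤ Real.exp (2 * L / 3) := by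
  have h1 := Real.pow_div_factorial_le_exp (2 * L / 3) (by linarith) 6
  have h2 : 100 / 9 * L ^ 2 ≤ (2 * L / 3) ^ 6 / (Nat.factorial 6 : ℝ) := by
    have h3 : (Nat.factorial 6 : ℝ) = 720 := by norm_num [Nat.factorial]
    rw [h3]
    have h4 : (18 : ℝ) ^ 4 ≤ L ^ 4 := pow_le_pow_left₀ (by norm_num) hL 4
    have h5 : 0 ≤ L ^ 2 := by positivity
    have h6 : L ^ 2 * (18 : ℝ) ^ 4 ≤ L ^ 2 * L ^ 4 := mul_le_mul_of_nonneg_left h4 h5
    have h7 : (2 * L / 3) ^ 6 / 720 = 64 / (729 * 720) * (L ^ 2 * L ^ 4) := by ring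
    rw [h7]
    have h8 : 64 / (729 * 720) * (L ^ 2 * (18 : ℝ) ^ 4) ≤ 64 / (729 * 720) * (L ^ 2 * L ^ 4) :=
      mul_le_mul_of_nonneg_left h6 (by norm_num)
    refine le_trans ?_ h8
    have h9 : 64 / (729 * 720) * (L ^ 2 * (18 : ℝ) ^ 4) = (64 * 18 ^ 4 / (729 * 720)) * L ^ 2 := by
      ring
    rw [h9]
    refine mul_le_mul_of_nonneg_right ?_ h5
    norm_num
  exact h2.trans h1

theorem card_le_cube {n : ℕ} (H : Finset (Finset (Fin n))) (hH : ∀ e ∈ H, e.card = 3) :
    (H.card : ℝ) ≤ (n : ℝ) ^ 3 / 6 := by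
  have h1 : H ⊆ Finset.powersetCard 3 (Finset.univ : Finset (Fin n)) := by
    intro e he
    rw [Finset.mem_powersetCard]
    exact ⟨Finset.subset_univ _, hH e he⟩
  have h2 := Finset.card_le_card h1
  rw [Finset.card_powersetCard, Finset.card_univ, Fintype.card_fin] at h2
  have h3 : ((n.choose 3 : ℕ) : ℝ) ≤ (n : ℝ) ^ 3 / (Nat.factorial 3 : ℝ) :=
    Nat.choose_le_pow_div 3 n
  have h4 : (Nat.factorial 3 : ℝ) = 6 := by norm_num [Nat.factorial]
  rw [h4] at h3
  have h5 : (H.card : ℝ) ≤ (n.choose 3 : ℝ) := by exact_mod_cast h2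
  linarith

/-- The main theorem. -/
theorem dense_log (n d : ℕ) (hn : 0 < n) (hd : 3 ≤ d)
    (H : Finset (Finset (Fin n))) (hH : ∀ e ∈ H, e.card = 3)
    (h : (d : ℝ) * (n : ℝ) ^ 3 ≤ (H.card : ℝ) * Real.log n) :
    ∃ F : Finset (Finset (Fin d)), IsAdmissible d F ∧
      ∃ φ : Fin d ↪ Fin n, ∀ e ∈ F, e.map φ ∈ H := by
  classical
  have : Nonempty (Fin n) := ⟨⟨0, hn⟩⟩
  have hnR : (0 : ℝ) < n := by exact_mod_cast hn
  have hn3 : (0 : ℝ) < (n : ℝ) ^ 3 := by positivity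
  have hdR : (3 : ℝ) ≤ (d : ℝ) := by exact_mod_cast hd
  set L := Real.log n with hL
  have hcub := card_le_cube H hH
  have hH0 : (0 : ℝ) ≤ (H.card : ℝ) := Nat.cast_nonneg _
  -- `L ≥ 18`
  have hHL : 0 < (H.card : ℝ) * L := lt_of_lt_of_le (by positivity) h
  have hHpos : (0 : ℝ) < (H.card : ℝ) := by
    rcases hH0.lt_or_eq with h1 | h1
    · exact h1
    · rw [← h1, zero_mul] at hHL
      exact absurd hHL (lt_irrefl _)
  have hLpos : 0 < L := pos_of_mul_pos_right hHL hH0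
  have hdL : 6 * (d : ℝ) ≤ L := by
    have h1 : (d : ℝ) * (n : ℝ) ^ 3 ≤ (n : ℝ) ^ 3 / 6 * L :=
      h.trans (mul_le_mul_of_nonneg_right hcub hLpos.le)
    have h2 : (6 * (d : ℝ)) * (n : ℝ) ^ 3 ≤ L * (n : ℝ) ^ 3 := by linarith
    exact le_of_mul_le_mul_right h2 hn3
  have hL18 : 18 ≤ L := by linarith
  -- `d ≤ n`
  have hdn : d ≤ n := by
    have h1 : L ≤ (n : ℝ) - 1 := Real.log_le_sub_one_of_pos hnR
    have h2 : (d : ℝ) ≤ (n : ℝ) := by linarith
    exact_mod_cast h2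
  -- the number `m + 1` of sampled vertices in each part
  obtain ⟨m, hm⟩ : ∃ m, d / 3 = m + 1 := ⟨d / 3 - 1, by omega⟩
  have hm1 : 3 * (m + 1) ≤ d := by omega
  have hm2 : d ≤ 3 * (m + 1) + 2 := by omega
  have hm1R : 3 * ((m : ℝ) + 1) ≤ (d : ℝ) := by exact_mod_cast hm1
  set f := fH H with hf
  have hf01 : ∀ a b c, f a b c = 0 ∨ f a b c = 1 := fH_01 H
  have hf0 : ∀ a b c, 0 ≤ f a b c := fun a b c => by
    rcases hf01 a b c with h1 | h1 <;> rw [h1] <;> norm_num
  have hf1 : ∀ a b c, f a b c ≤ 1 := fun a b c => by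
    rcases hf01 a b c with h1 | h1 <;> rw [h1] <;> norm_num
  set Sf := ∑ a, ∑ b, ∑ c, f a b c with hSf
  have hSfH : 6 * (H.card : ℝ) ≤ Sf := sum_fH H hH
  have hSfp : 0 < Sf := by linarith
  have hM0 : 0 < MM (m + 1) f 0 := by
    rw [MM_zero]
    positivity
  obtain ⟨lam, hlam0, hlam1, hst⟩ := exists_stable m f hf0 hf1 hM0
  have hMp := MM_pos (m + 1) f hf0 hM0 hlam0
  have hmp : (0 : ℝ) < (m : ℝ) + 1 := by positivity
  -- bound for `lam`
  have hlam2 : lam * ((m : ℝ) + 1) ^ 2 ≤ L / 3 := by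
    have h1 : ((m : ℝ) + 1) ^ 2 * ZZ (m + 1) f 0 / MM (m + 1) f 0 =
        (n : ℝ) ^ 3 / (((m : ℝ) + 1) * Sf) := by
      have hnm : (0 : ℝ) < (n : ℝ) ^ m := by positivity
      rw [ZZ_zero, MM_zero, ← hSf, pow_succ (n : ℝ) m, mul_pow ((n : ℝ) ^ m) (n : ℝ) 3]
      field_simp
    rw [h1] at hlam1
    have h2 : lam * ((m : ℝ) + 1) ^ 2 ≤
        6 * ((n : ℝ) ^ 3 / (((m : ℝ) + 1) * Sf)) * ((m : ℝ) + 1) ^ 2 :=
      mul_le_mul_of_nonneg_right hlam1 (by positivity)
    refine h2.trans ?_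
    have h3 : 6 * ((n : ℝ) ^ 3 / (((m : ℝ) + 1) * Sf)) * ((m : ℝ) + 1) ^ 2 =
        6 * ((m : ℝ) + 1) * (n : ℝ) ^ 3 / Sf := by
      field_simp
    rw [h3, div_le_iff₀ hSfp]
    have h4 : 3 * ((m : ℝ) + 1) * (n : ℝ) ^ 3 ≤ (H.card : ℝ) * L :=
      (mul_le_mul_of_nonneg_right hm1R hn3.le).trans h
    have h5 : 6 * (H.card : ℝ) * L ≤ Sf * L := mul_le_mul_of_nonneg_right hSfH hLpos.le
    linarith
  have hexpL : Real.exp L = (n : ℝ) := Real.exp_log hnR
  have heps : 9 * ((m : ℝ) + 1) ^ 2 * Real.exp (lam * ((m : ℝ) + 1) ^ 2) ≤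
      1 / 400 * (Fintype.card (Fin n) : ℝ) := by
    rw [Fintype.card_fin, ← hexpL]
    have h1 : Real.exp (lam * ((m : ℝ) + 1) ^ 2) ≤ Real.exp (L / 3) := Real.exp_le_exp.2 hlam2
    have h2 : (m : ℝ) + 1 ≤ L / 18 := by linarith
    have h3 : ((m : ℝ) + 1) ^ 2 ≤ (L / 18) ^ 2 := pow_le_pow_left₀ hmp.le h2 2
    have h4 := exp_bound hL18
    have h5 : Real.exp L = Real.exp (2 * L / 3) * Real.exp (L / 3) := by
      rw [← Real.exp_add]
      congr 1
      ring
    calc 9 * ((m : ℝ) + 1) ^ 2 * Real.exp (lam * ((m : ℝ) + 1) ^ 2)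
        ≤ 9 * (L / 18) ^ 2 * Real.exp (L / 3) := by
          refine mul_le_mul ?_ h1 (Real.exp_pos _).le (by positivity)
          linarith
      _ = 1 / 400 * (100 / 9 * L ^ 2) * Real.exp (L / 3) := by ring
      _ ≤ 1 / 400 * Real.exp (2 * L / 3) * Real.exp (L / 3) := by
          refine mul_le_mul_of_nonneg_right ?_ (Real.exp_pos _).le
          linarith
      _ = 1 / 400 * Real.exp L := by
          rw [h5]
          ring
  obtain ⟨s, hs, hgood⟩ := exists_good m f hf0 hf1 lam hlam0 hMp hst heps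
  obtain ⟨S, hS1, hS2, hS3⟩ := exists_linear (m + 1) f hf01 (bl s 0) (bl s 1) (bl s 2)
    (12 / 100 * ((m : ℝ) + 1) ^ 2) (by positivity) hgood
  refine exists_embedding hdn hm1 H s hs S ?_ hS2 ?_
  · intro t ht
    have h1 := fH_eq_one H _ _ _ (hS1 t ht)
    have h2 : (Finset.univ.image fun c : Fin 3 => s (c, co t c)) =
        {bl s 0 t.1, bl s 1 t.2.1, bl s 2 t.2.2} := by
      ext v
      simp only [Finset.mem_image, Finset.mem_univ, true_and, Fin.exists_fin_succ,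
        Finset.mem_insert, Finset.mem_singleton, bl, co]
      simp [eq_comm]
    rw [h2]
    exact h1
  · -- arithmetic
    have hdR2 : (d : ℝ) ≤ 3 * ((m : ℝ) + 1) + 2 := by exact_mod_cast hm2
    have hd0 : (0 : ℝ) ≤ (d : ℝ) := Nat.cast_nonneg _
    have hsq : (d : ℝ) ^ 2 ≤ (3 * ((m : ℝ) + 1) + 2) ^ 2 := pow_le_pow_left₀ hd0 hdR2 2
    rcases le_or_gt 4 m with h4 | h4
    · have h4R : (4 : ℝ) ≤ (m : ℝ) := by exact_mod_cast h4
      nlinarith
    · have h5 : m = 0 ∨ m = 1 ∨ m = 2 ∨ m = 3 := by omega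
      rcases h5 with rfl | rfl | rfl | rfl
      · have : 1 ≤ S.card := by
          by_contra hc
          have : S.card = 0 := by omega
          rw [this] at hS3
          norm_num at hS3
        have h6 : (1 : ℝ) ≤ (S.card : ℝ) := by exact_mod_cast this
        norm_num at hsq
        linarith
      · have : 1 ≤ S.card := by
          by_contra hc
          have : S.card = 0 := by omega
          rw [this] at hS3
          norm_num at hS3
        have h6 : (1 : ℝ) ≤ (S.card : ℝ) := by exact_mod_cast this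
        norm_num at hsq
        linarith
      · have : 2 ≤ S.card := by
          by_contra hc
          have h7 : S.card ≤ 1 := by omega
          have h8 : (S.card : ℝ) ≤ 1 := by exact_mod_cast h7
          norm_num at hS3
          linarith
        have h6 : (2 : ℝ) ≤ (S.card : ℝ) := by exact_mod_cast this
        norm_num at hsq
        linarith
      · have : 2 ≤ S.card := by
          by_contra hc
          have h7 : S.card ≤ 1 := by omega
          have h8 : (S.card : ℝ) ≤ 1 := by exact_mod_cast h7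
          norm_num at hS3
          linarith
        have h6 : (2 : ℝ) ≤ (S.card : ℝ) := by exact_mod_cast this
        norm_num at hsq
        linarith

end Pool.Agent.helper41.LF
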