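import Pool.Agent.helper41.LF.Gibbs

/-!
Existence of a stable tilt and the second moment of all codegrees.
-/

namespace Pool.Agent.helper41.LF

open Finset

variable {A B C : Type*} [Fintype A] [Fintype B] [Fintype C]

/-- cyclic shift of the three arguments -/
def rot (f : A → B → C → ℝ) : B → C → A → ℝ := fun b c a => f a b c

theorem NN_rot {m : ℕ} (f : A → B → C → ℝ) (x : Fin m → A) (y : Fin m → B) (z : Fin m → C) :
    NN (rot f) y z x = NN f x y z := by
  unfold NN rot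
  exact sum_rot (fun j k i => f (x i) (y j) (z k))

theorem SW_rot {m : ℕ} (f : A → B → C → ℝ) (lam : ℝ)
    (G : (Fin m → A) → (Fin m → B) → (Fin m → C) → ℝ) :
    SW (rot f) lam (fun y z x => G x y z) = SW f lam G := by
  unfold SW
  simp only [NN_rot]
  exact sum_rot (fun y z x => G x y z * Real.exp (lam * NN f x y z))

theorem ZZ_rot (m : ℕ) (f : A → B → C → ℝ) (lam : ℝ) : ZZ m (rot f) lam = ZZ m f lam :=
  SW_rot f lam (fun _ _ _ => 1)

/-- first moment of `N` -/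
noncomputable def MM (m : ℕ) (f : A → B → C → ℝ) (lam : ℝ) : ℝ :=
  SW (m := m) f lam (NN f)

theorem MM_rot (m : ℕ) (f : A → B → C → ℝ) (lam : ℝ) : MM m (rot f) lam = MM m f lam := by
  unfold MM
  rw [← SW_rot f lam (NN f)]
  congr 1
  funext y z x
  exact NN_rot f x y z

theorem NN_nonneg {m : ℕ} (f : A → B → C → ℝ) (hf : ∀ a b c, 0 ≤ f a b c)
    (x : Fin m → A) (y : Fin m → B) (z : Fin m → C) : 0 ≤ NN f x y z :=
  Finset.sum_nonneg fun _ _ => Finset.sum_nonneg fun _ _ => Finset.sum_nonneg fun _ _ => hf _ _ _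

theorem NN_le {m : ℕ} (f : A → B → C → ℝ) (hf : ∀ a b c, f a b c ≤ 1)
    (x : Fin m → A) (y : Fin m → B) (z : Fin m → C) : NN f x y z ≤ (m : ℝ) ^ 3 := by
  unfold NN
  calc ∑ i : Fin m, ∑ j : Fin m, ∑ k : Fin m, f (x i) (y j) (z k)
      ≤ ∑ i : Fin m, ∑ j : Fin m, ∑ k : Fin m, (1 : ℝ) :=
        Finset.sum_le_sum fun _ _ => Finset.sum_le_sum fun _ _ => Finset.sum_le_sum fun _ _ =>
          hf _ _ _
    _ = (m : ℝ) ^ 3 := by
        simp
        ring

theorem ZZ_step [Nonempty A] [Nonempty B] [Nonempty C] (m : ℕ) (f : A → B → C → ℝ)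
    (lam kap : ℝ) :
    ZZ m f (lam + kap) ≤
      ZZ m f lam * Real.exp (kap * (MM m f (lam + kap) / ZZ m f (lam + kap))) := by
  have hZ := ZZ_pos m f (lam + kap)
  set mb := MM m f (lam + kap) / ZZ m f (lam + kap) with hmb
  have h1 : Real.exp (-(kap * mb)) * ZZ m f (lam + kap) ≤ ZZ m f lam := by
    have e1 : Real.exp (-(kap * mb)) * ZZ m f (lam + kap) =
        SW (m := m) f (lam + kap) (fun x y z =>
          Real.exp (-(kap * mb)) * ((1 + kap * mb) * 1 + (-kap) * NN f x y z)) := by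
      rw [SW_smul, SW_add, SW_smul, SW_smul]
      have : SW (m := m) f (lam + kap) (NN f) = mb * ZZ m f (lam + kap) := by
        rw [hmb, div_mul_cancel₀ _ hZ.ne']
        rfl
      have h2 : SW (m := m) f (lam + kap) (fun x y z => NN f x y z) = mb * ZZ m f (lam + kap) :=
        this
      rw [h2]
      have h3 : SW (m := m) f (lam + kap) (fun _ _ _ => 1) = ZZ m f (lam + kap) := rfl
      rw [h3]
      ring
    rw [e1]
    unfold ZZ SW
    refine Finset.sum_le_sum fun x _ => Finset.sum_le_sum fun y _ => Finset.sum_le_sum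
      fun z _ => ?_
    have h4 : (1 + kap * mb) * 1 + (-kap) * NN f x y z ≤ Real.exp (kap * mb - kap * NN f x y z) := by
      have := Real.add_one_le_exp (kap * mb - kap * NN f x y z)
      linarith
    calc Real.exp (-(kap * mb)) * ((1 + kap * mb) * 1 + (-kap) * NN f x y z) *
          Real.exp ((lam + kap) * NN f x y z)
        ≤ Real.exp (-(kap * mb)) * Real.exp (kap * mb - kap * NN f x y z) *
          Real.exp ((lam + kap) * NN f x y z) := by gcongr
      _ = 1 * Real.exp (lam * NN f x y z) := by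
          rw [← Real.exp_add, ← Real.exp_add, one_mul]
          congr 1
          ring
  calc ZZ m f (lam + kap) = Real.exp (kap * mb) * (Real.exp (-(kap * mb)) * ZZ m f (lam + kap)) := by
        rw [← mul_assoc, ← Real.exp_add]
        simp
    _ ≤ Real.exp (kap * mb) * ZZ m f lam := by gcongr
    _ = ZZ m f lam * Real.exp (kap * mb) := mul_comm _ _

theorem MM_pos (m : ℕ) (f : A → B → C → ℝ) (hf : ∀ a b c, 0 ≤ f a b c)
    (h0 : 0 < MM m f 0) {lam : ℝ} (hlam : 0 ≤ lam) : 0 < MM m f lam := by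
  refine lt_of_lt_of_le h0 ?_
  unfold MM SW
  refine Finset.sum_le_sum fun x _ => Finset.sum_le_sum fun y _ => Finset.sum_le_sum
    fun z _ => ?_
  have hN := NN_nonneg f hf x y z
  refine mul_le_mul_of_nonneg_left ?_ hN
  refine Real.exp_le_exp.2 ?_
  rw [zero_mul]
  exact mul_nonneg hlam hN

theorem MM_le [Nonempty A] [Nonempty B] [Nonempty C] (m : ℕ) (f : A → B → C → ℝ)
    (hf : ∀ a b c, f a b c ≤ 1) (lam : ℝ) : MM m f lam ≤ (m : ℝ) ^ 3 * ZZ m f lam := by
  unfold MM ZZ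
  rw [← SW_smul]
  refine SW_mono f lam _ _ fun x y z => ?_
  rw [mul_one]
  exact NN_le f hf x y z

/-- A stable tilt exists. -/
theorem exists_stable [Nonempty A] [Nonempty B] [Nonempty C] (m : ℕ) (f : A → B → C → ℝ)
    (hf : ∀ a b c, 0 ≤ f a b c) (hf1 : ∀ a b c, f a b c ≤ 1) (h0 : 0 < MM (m + 1) f 0) :
    ∃ lam : ℝ, 0 ≤ lam ∧ lam ≤ 6 * (((m : ℝ) + 1) ^ 2 * ZZ (m + 1) f 0 / MM (m + 1) f 0) ∧
      ZZ (m + 1) f (lam + ((m : ℝ) + 1) ^ 2 * ZZ (m + 1) f lam / MM (m + 1) f lam) ≤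
        ZZ (m + 1) f lam * Real.exp (6 / 5 * ((m : ℝ) + 1) ^ 2) := by
  by_contra hcon
  push Not at hcon
  set Y := ((m : ℝ) + 1) ^ 2 * ZZ (m + 1) f 0 / MM (m + 1) f 0 with hY
  have hm : (0 : ℝ) < ((m : ℝ) + 1) ^ 2 := by positivity
  have hZ0 := ZZ_pos (m + 1) f 0
  have hYp : 0 < Y := by rw [hY]; positivity
  set E0 := MM (m + 1) f 0 / ZZ (m + 1) f 0 with hE0
  have hE0p : 0 < E0 := by rw [hE0]; positivity
  have hYE : Y * E0 = ((m : ℝ) + 1) ^ 2 := by
    rw [hY, hE0]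
    field_simp
  have key : ∀ j : ℕ, ∃ lam : ℝ, 0 ≤ lam ∧ lam ≤ (6 - 6 * (5 / 6 : ℝ) ^ j) * Y ∧
      (6 / 5 : ℝ) ^ j * E0 ≤ MM (m + 1) f lam / ZZ (m + 1) f lam := by
    intro j
    induction j with
    | zero => exact ⟨0, le_refl _, by simp, by simp [hE0]⟩
    | succ j ih =>
      obtain ⟨lam, hl0, hl1, hl2⟩ := ih
      have hq : (0 : ℝ) < (5 / 6 : ℝ) ^ j := by positivity
      have hlY : lam ≤ 6 * Y := by
        refine hl1.trans (mul_le_mul_of_nonneg_right ?_ hYp.le)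
        linarith
      have hun := hcon lam hl0 hlY
      have hZ := ZZ_pos (m + 1) f lam
      have hM := MM_pos (m + 1) f hf h0 hl0
      set kap := ((m : ℝ) + 1) ^ 2 * ZZ (m + 1) f lam / MM (m + 1) f lam with hkap
      have hkp : 0 < kap := by rw [hkap]; positivity
      have hstep := ZZ_step (m + 1) f lam kap
      have h1 : Real.exp (6 / 5 * ((m : ℝ) + 1) ^ 2) <
          Real.exp (kap * (MM (m + 1) f (lam + kap) / ZZ (m + 1) f (lam + kap))) := by
        have := hun.trans_le hstep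
        exact lt_of_mul_lt_mul_left this hZ.le
      have h2 := Real.exp_lt_exp.1 h1
      have hkE : kap * (MM (m + 1) f lam / ZZ (m + 1) f lam) = ((m : ℝ) + 1) ^ 2 := by
        rw [hkap]
        field_simp
      have h3 : 6 / 5 * (MM (m + 1) f lam / ZZ (m + 1) f lam) ≤
          MM (m + 1) f (lam + kap) / ZZ (m + 1) f (lam + kap) := by
        have h4 : kap * (6 / 5 * (MM (m + 1) f lam / ZZ (m + 1) f lam)) ≤
            kap * (MM (m + 1) f (lam + kap) / ZZ (m + 1) f (lam + kap)) := by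
          linarith
        exact le_of_mul_le_mul_left h4 hkp
      refine ⟨lam + kap, by linarith, ?_, ?_⟩
      · have hk2 : kap ≤ (5 / 6 : ℝ) ^ j * Y := by
          have hp : (6 / 5 : ℝ) ^ j * (5 / 6 : ℝ) ^ j = 1 := by
            rw [← mul_pow]
            norm_num
          have h5 : kap * ((6 / 5 : ℝ) ^ j * E0) ≤ Y * E0 := by
            rw [hYE, ← hkE]
            exact mul_le_mul_of_nonneg_left hl2 hkp.le
          have h6 : kap * (6 / 5 : ℝ) ^ j ≤ Y := by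
            have : kap * (6 / 5 : ℝ) ^ j * E0 ≤ Y * E0 := by linarith
            exact le_of_mul_le_mul_right this hE0p
          calc kap = (kap * (6 / 5 : ℝ) ^ j) * (5 / 6 : ℝ) ^ j := by
                rw [mul_assoc, hp, mul_one]
            _ ≤ Y * (5 / 6 : ℝ) ^ j := mul_le_mul_of_nonneg_right h6 hq.le
            _ = _ := mul_comm _ _
        calc lam + kap ≤ (6 - 6 * (5 / 6 : ℝ) ^ j) * Y + (5 / 6 : ℝ) ^ j * Y := add_le_add hl1 hk2
          _ = (6 - 6 * (5 / 6 : ℝ) ^ (j + 1)) * Y := by ring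
      · calc (6 / 5 : ℝ) ^ (j + 1) * E0 = 6 / 5 * ((6 / 5 : ℝ) ^ j * E0) := by ring
          _ ≤ 6 / 5 * (MM (m + 1) f lam / ZZ (m + 1) f lam) :=
              mul_le_mul_of_nonneg_left hl2 (by norm_num)
          _ ≤ _ := h3
  obtain ⟨j, hj⟩ := pow_unbounded_of_one_lt (((m : ℝ) + 1) ^ 3 / E0) (by norm_num : (1 : ℝ) < 6 / 5)
  obtain ⟨lam, hl0, -, hl2⟩ := key j
  have h1 : MM (m + 1) f lam / ZZ (m + 1) f lam ≤ ((m : ℝ) + 1) ^ 3 := by
    rw [div_le_iff₀ (ZZ_pos (m + 1) f lam)]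
    have := MM_le (m + 1) f hf1 lam
    push_cast at this
    exact this
  rw [div_lt_iff₀ hE0p] at hj
  linarith

theorem exp_six_fifths : Real.exp (6 / 5) ≤ 333 / 100 := by
  have h1 : Real.exp (6 / 5) ^ 5 ≤ (333 / 100 : ℝ) ^ 5 := by
    rw [← Real.exp_nat_mul]
    have h2 : ((5 : ℕ) : ℝ) * (6 / 5) = ((6 : ℕ) : ℝ) * 1 := by norm_num
    rw [h2, Real.exp_nat_mul]
    have h3 := Real.exp_one_lt_d9
    calc Real.exp 1 ^ 6 ≤ (2.7182818286 : ℝ) ^ 6 :=
          pow_le_pow_left₀ (Real.exp_pos _).le h3.le _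
      _ ≤ (333 / 100 : ℝ) ^ 5 := by norm_num
  exact (pow_le_pow_iff_left₀ (Real.exp_pos _).le (by norm_num) (by norm_num)).1 h1

/-- Second moment of the codegrees in one direction under a stable tilt. -/
theorem second_moment_one [Nonempty A] [Nonempty B] [Nonempty C] (m : ℕ) (f : A → B → C → ℝ)
    (hf : ∀ a b c, 0 ≤ f a b c) (lam : ℝ) (hM : 0 < MM (m + 1) f lam)
    (hst : ZZ (m + 1) f (lam + ((m : ℝ) + 1) ^ 2 * ZZ (m + 1) f lam / MM (m + 1) f lam) ≤
        ZZ (m + 1) f lam * Real.exp (6 / 5 * ((m : ℝ) + 1) ^ 2)) :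
    SW (m := m + 1) f lam (QQ f) * (((m : ℝ) + 1) ^ 2 * ZZ (m + 1) f lam) ≤
      266 / 100 * MM (m + 1) f lam ^ 2 := by
  have hZ := ZZ_pos (m + 1) f lam
  have hm : (0 : ℝ) < ((m : ℝ) + 1) ^ 2 := by positivity
  set kap := ((m : ℝ) + 1) ^ 2 * ZZ (m + 1) f lam / MM (m + 1) f lam with hkap
  have hkp : 0 < kap := by rw [hkap]; positivity
  have h := dirZ m f hf lam kap hkp.le hst
  have hkM : kap * MM (m + 1) f lam = ((m : ℝ) + 1) ^ 2 * ZZ (m + 1) f lam := by
    rw [hkap]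
    field_simp
  have hMM : SW (m := m + 1) f lam (NN f) = MM (m + 1) f lam := rfl
  rw [hMM, hkM] at h
  set q := SW (m := m + 1) f lam (QQ f) with hq
  have he := exp_six_fifths
  have h1 : kap ^ 2 / 2 * q ≤ 133 / 100 * (((m : ℝ) + 1) ^ 2 * ZZ (m + 1) f lam) := by
    have hpz : 0 < ((m : ℝ) + 1) ^ 2 * ZZ (m + 1) f lam := by positivity
    nlinarith
  have h2 : (kap * MM (m + 1) f lam) ^ 2 * q ≤
      266 / 100 * (((m : ℝ) + 1) ^ 2 * ZZ (m + 1) f lam) * MM (m + 1) f lam ^ 2 := by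
    have := mul_le_mul_of_nonneg_right h1 (by positivity : 0 ≤ 2 * MM (m + 1) f lam ^ 2)
    linarith
  rw [hkM] at h2
  have hpz : 0 < ((m : ℝ) + 1) ^ 2 * ZZ (m + 1) f lam := by positivity
  have h3 : (q * (((m : ℝ) + 1) ^ 2 * ZZ (m + 1) f lam)) *
      (((m : ℝ) + 1) ^ 2 * ZZ (m + 1) f lam) ≤
      (266 / 100 * MM (m + 1) f lam ^ 2) * (((m : ℝ) + 1) ^ 2 * ZZ (m + 1) f lam) := by
    linarith
  exact le_of_mul_le_mul_right h3 hpz

/-- sum of the squared codegrees of all pairs of a sample -/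
def Q3 {m : ℕ} (f : A → B → C → ℝ) (x : Fin m → A) (y : Fin m → B) (z : Fin m → C) : ℝ :=
  QQ f x y z + QQ (rot f) y z x + QQ (rot (rot f)) z x y

theorem second_moment [Nonempty A] [Nonempty B] [Nonempty C] (m : ℕ) (f : A → B → C → ℝ)
    (hf : ∀ a b c, 0 ≤ f a b c) (lam : ℝ) (hM : 0 < MM (m + 1) f lam)
    (hst : ZZ (m + 1) f (lam + ((m : ℝ) + 1) ^ 2 * ZZ (m + 1) f lam / MM (m + 1) f lam) ≤
        ZZ (m + 1) f lam * Real.exp (6 / 5 * ((m : ℝ) + 1) ^ 2)) :
    SW (m := m + 1) f lam (Q3 f) * (((m : ℝ) + 1) ^ 2 * ZZ (m + 1) f lam) ≤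
      798 / 100 * MM (m + 1) f lam ^ 2 := by
  have h1 := second_moment_one m f hf lam hM hst
  have h2 := second_moment_one m (rot f) (fun a b c => hf _ _ _) lam
    (by rw [MM_rot]; exact hM) (by rw [ZZ_rot, ZZ_rot, MM_rot]; exact hst)
  have h3 := second_moment_one m (rot (rot f)) (fun a b c => hf _ _ _) lam
    (by rw [MM_rot, MM_rot]; exact hM)
    (by rw [ZZ_rot, ZZ_rot, ZZ_rot, ZZ_rot, MM_rot, MM_rot]; exact hst)
  rw [ZZ_rot, MM_rot] at h2
  rw [ZZ_rot, ZZ_rot, MM_rot, MM_rot] at h3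
  have e2 : SW (m := m + 1) f lam (fun x y z => QQ (rot f) y z x) =
      SW (m := m + 1) (rot f) lam (QQ (rot f)) := by
    rw [← SW_rot]
  have e3 : SW (m := m + 1) f lam (fun x y z => QQ (rot (rot f)) z x y) =
      SW (m := m + 1) (rot (rot f)) lam (QQ (rot (rot f))) := by
    rw [← SW_rot, ← SW_rot]
  have e : SW (m := m + 1) f lam (Q3 f) = SW (m := m + 1) f lam (QQ f) +
      SW (m := m + 1) (rot f) lam (QQ (rot f)) +
      SW (m := m + 1) (rot (rot f)) lam (QQ (rot (rot f))) := by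
    rw [← e2, ← e3, ← SW_add, ← SW_add]
    rfl
  rw [e]
  linarith

end Pool.Agent.helper41.LF
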